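import Pool.Agent.Lib.H96H.D

/-! # H96H, chunk A0: payoffs and cones -/

set_option autoImplicit false

namespace H96H

open Finset H98P H98Z H98M H63F

variable {V : Type*} [Fintype V] [DecidableEq V]

/-- A complex with an apex is acyclic. PROOF: `c s = if a ∈ s then z (s.erase a) else 0`. -/
theorem ac_cone {E : Type*} [Fintype E] [DecidableEq E] {K : Finset E → Prop} (hK : Dn K) (a : E)
    (h : ∀ s, K s → K (insert a s)) : AC K := by
  have _ := hK
  intro z hz hb
  refine ⟨fun s => if a ∈ s then z (s.erase a) else 0, fun s hs => ?_, fun r => ?_⟩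
  · have hs' : (if a ∈ s then z (s.erase a) else 0) ≠ 0 := hs
    by_cases h0 : a ∈ s
    · rw [if_pos h0] at hs'
      have h1 := h _ (hz _ hs')
      rwa [insert_erase h0] at h1
    · rw [if_neg h0] at hs'
      exact absurd rfl hs'
  · show ∑ e ∈ rᶜ, (if a ∈ insert e r then z ((insert e r).erase a) else 0) = z r
    by_cases har : a ∈ r
    · have h1 : ∑ e ∈ (r.erase a)ᶜ, z (insert e (r.erase a)) = 0 := hb (r.erase a)
      have h2 : (r.erase a)ᶜ = insert a rᶜ := by
        ext x
        rw [mem_compl, mem_erase, mem_insert, mem_compl]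
        constructor
        · intro h
          by_cases hx : x = a
          · exact Or.inl hx
          · exact Or.inr fun hxr => h ⟨hx, hxr⟩
        · rintro (h | h) ⟨h3, h4⟩
          · exact h3 h
          · exact h h4
      rw [h2, sum_insert (fun h => (mem_compl.1 h) har), insert_erase har] at h1
      have h3 : ∑ e ∈ rᶜ, (if a ∈ insert e r then z ((insert e r).erase a) else 0) =
          ∑ e ∈ rᶜ, z (insert e (r.erase a)) := by
        refine sum_congr rfl fun e he => ?_
        have hea : e ≠ a := by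
          rintro rfl
          exact (mem_compl.1 he) har
        rw [if_pos (mem_insert_of_mem har), erase_insert_of_ne hea]
      rw [h3]
      have h4 := eq_neg_of_add_eq_zero_right h1
      rw [h4, ZMod.neg_eq_self_mod_two]
    · rw [sum_eq_single a]
      · rw [if_pos (mem_insert_self a r), erase_insert har]
      · intro e _ hea
        rw [if_neg]
        rw [mem_insert]
        rintro (h | h)
        · exact hea h.symm
        · exact har h
      · intro h
        exact absurd (mem_compl.2 har) h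

private theorem a0_loop {x : Sym2 V → ℝ} (hl : ∀ v, x s(v, v) = 0) {e : Sym2 V} (he : e.IsDiag) :
    x e = 0 := by
  induction e using Sym2.ind with
  | _ a b =>
    have hab : a = b := he
    subst hab
    exact hl a

private theorem a0_pay {x : Sym2 V → ℝ} (h1 : ∑ e, x e = 1) (hl : ∀ v, x s(v, v) = 0) (c : ℝ)
    (S : Finset V) (s : St V)
    (hs : ∀ e : Sym2 V, ¬ e.IsDiag → pp e s = c * (px e S - 2 / (Fintype.card V : ℝ))) :
    pay pp (fun _ => 0) x s = c * (cutw x S - 2 / (Fintype.card V : ℝ)) := by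
  have h2 : ∀ e ∈ (univ : Finset (Sym2 V)),
      x e * pp e s = c * (x e * px e S) - c * (2 / (Fintype.card V : ℝ)) * x e := by
    intro e _
    by_cases he : e.IsDiag
    · rw [a0_loop hl he]
      ring
    · rw [hs e he]
      ring
  unfold pay cutw
  rw [sum_congr rfl h2, sum_sub_distrib, ← mul_sum, ← mul_sum, h1]
  ring

/-- The payoff of `v+`. -/
theorem pay_pos {x : Sym2 V → ℝ} (h1 : ∑ e, x e = 1) (hl : ∀ v, x s(v, v) = 0) (v : V) :
    pay pp (fun _ => 0) x (Sum.inl (v, true) : St V) = cutw x {v} - 2 / (Fintype.card V : ℝ) := by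
  rw [a0_pay h1 hl 1 {v} _ (fun e he => ?_), one_mul]
  simp only [pp]
  rw [if_neg he, if_pos trivial]

/-- The payoff of `v-`. -/
theorem pay_neg {x : Sym2 V → ℝ} (h1 : ∑ e, x e = 1) (hl : ∀ v, x s(v, v) = 0) (v : V) :
    pay pp (fun _ => 0) x (Sum.inl (v, false) : St V) = -(cutw x {v} - 2 / (Fintype.card V : ℝ)) := by
  rw [a0_pay h1 hl (-1) {v} _ (fun e he => ?_), neg_one_mul]
  simp only [pp]
  rw [if_neg he, if_neg Bool.false_ne_true]

/-- The payoff of a nontrivial cut. -/
theorem pay_cut {x : Sym2 V → ℝ} (h1 : ∑ e, x e = 1) (hl : ∀ v, x s(v, v) = 0) (S : NCut V) :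
    pay pp (fun _ => 0) x (Sum.inr S : St V) = cutw x S.1 - 2 / (Fintype.card V : ℝ) := by
  rw [a0_pay h1 hl 1 S.1 _ (fun e he => ?_), one_mul]
  simp only [pp]
  rw [if_neg he, one_mul]

private theorem a0_px (a b v : V) (hab : a ≠ b) :
    px s(a, b) ({v} : Finset V) = (if v = a then (1 : ℝ) else 0) + (if v = b then (1 : ℝ) else 0) := by
  unfold px
  by_cases h1 : v = a
  · have h2 : ¬ v = b := fun h => hab (h1 ▸ h)
    have h3 : ∃ a' ∈ ({v} : Finset V), ∃ b', b' ∉ ({v} : Finset V) ∧ s(a, b) = s(a', b') :=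
      ⟨a, by simp [h1], b, by rw [mem_singleton]; exact fun h => h2 h.symm, rfl⟩
    rw [if_pos h3, if_pos h1, if_neg h2, add_zero]
  · by_cases h2 : v = b
    · have h3 : ∃ a' ∈ ({v} : Finset V), ∃ b', b' ∉ ({v} : Finset V) ∧ s(a, b) = s(a', b') :=
        ⟨b, by simp [h2], a, by rw [mem_singleton]; exact fun h => h1 h.symm, Sym2.eq_swap⟩
      rw [if_pos h3, if_neg h1, if_pos h2, zero_add]
    · have h3 : ¬ ∃ a' ∈ ({v} : Finset V), ∃ b', b' ∉ ({v} : Finset V) ∧ s(a, b) = s(a', b') := by
        rintro ⟨a', ha', b', -, h⟩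
        rw [mem_singleton] at ha'
        subst ha'
        rcases Sym2.eq_iff.1 h with ⟨h4, -⟩ | ⟨-, h4⟩
        · exact h1 h4.symm
        · exact h2 h4.symm
      rw [if_neg h3, if_neg h1, if_neg h2, add_zero]

private theorem a0_sum {w : Sym2 V → ℝ} (hl : ∀ v, w s(v, v) = 0) :
    ∑ v, cutw w {v} = 2 * ∑ e, w e := by
  unfold cutw
  rw [sum_comm, mul_sum]
  refine sum_congr rfl fun e _ => ?_
  rw [← mul_sum]
  induction e using Sym2.ind with
  | _ a b =>
    by_cases hab : a = b
    · subst hab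
      rw [hl a]
      ring
    · have h1 : ∑ v : V, px s(a, b) ({v} : Finset V) = 2 := by
        rw [sum_congr rfl fun v _ => a0_px a b v hab, sum_add_distrib,
          Finset.sum_ite_eq' univ a (fun _ => (1 : ℝ)), Finset.sum_ite_eq' univ b (fun _ => (1 : ℝ)),
          if_pos (mem_univ _), if_pos (mem_univ _)]
        norm_num
      rw [h1]
      ring

/-- The sum of the degrees. (PROOF: see `g5f_sum` in `H63F/G5f.lean`.) -/
theorem sum_dev {x : Sym2 V → ℝ} (hV : 4 ≤ Fintype.card V) (h1 : ∑ e, x e = 1) (hl : ∀ v, x s(v, v) = 0) :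
    ∑ v : V, (cutw x {v} - 2 / (Fintype.card V : ℝ)) = 0 := by
  have h0 : (Fintype.card V : ℝ) ≠ 0 := by
    have : (0 : ℝ) < Fintype.card V := by exact_mod_cast (by omega : 0 < Fintype.card V)
    exact this.ne'
  rw [sum_sub_distrib, a0_sum hl, h1, sum_const, card_univ, nsmul_eq_mul]
  field_simp
  ring

end H96H
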