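import Pool.Agent.Lib.H96H.A0

/-! # H96H, chunk A1: hypothesis (a), cones -/

set_option autoImplicit false

namespace H96H

open Finset H98P H98Z H98M H63F

variable {V : Type*} [Fintype V] [DecidableEq V]

private theorem a1_dn (x : Sym2 V → ℝ) :
    Dn fun T : Finset (St V) => LL T ∧ Amin pp (fun _ => 0) x T := by
  intro s t hst ht
  obtain ⟨⟨h1, h2, h3⟩, h4⟩ := ht
  refine ⟨⟨fun S S' hS hS' => h1 S S' (hst hS) (hst hS'), fun v hv => h2 v ⟨hst hv.1, hst hv.2⟩,
    fun b => ?_⟩, fun S hS S' => h4 S (hst hS) S'⟩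
  obtain ⟨v, hv⟩ := h3 b
  exact ⟨v, fun h => hv (hst h)⟩

private theorem a1_nonx_symm {S T : Finset V} (h : NonX S T) : NonX T S := by
  unfold NonX at h ⊢
  rcases h with h | h | h | h
  · exact Or.inl (by rw [inter_comm]; exact h)
  · exact Or.inr (Or.inr (Or.inl h))
  · exact Or.inr (Or.inl h)
  · exact Or.inr (Or.inr (Or.inr (by rw [union_comm]; exact h)))

private theorem a1_nonx_self (S : Finset V) : NonX S S := Or.inr (Or.inl (Subset.refl _))

/-- Case `m < 0`, some signed vertex is a minimizer: it is an apex (`ac_cone`; not all `v+` (`v-`) are minimizers by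
`sum_dev`; `v+` and `v-` have opposite payoffs). -/
theorem caseV (hV : 4 ≤ Fintype.card V) {x : Sym2 V → ℝ} (h1 : ∑ e, x e = 1) (hl : ∀ v, x s(v, v) = 0) (v : V) (b : Bool)
    (hv : Amin pp (fun _ => 0) x ({Sum.inl (v, b)} : Finset (St V)))
    (hm : pay pp (fun _ => 0) x (Sum.inl (v, b) : St V) < 0) :
    AC fun T : Finset (St V) => LL T ∧ Amin pp (fun _ => 0) x T := by
  classical
  have hmin : ∀ s : St V, pay pp (fun _ => 0) x (Sum.inl (v, b) : St V) ≤ pay pp (fun _ => 0) x s :=
    fun s => hv _ (mem_singleton_self _) s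
  refine ac_cone (a1_dn x) (Sum.inl (v, b) : St V) fun T hT => ?_
  obtain ⟨⟨hT1, hT2, hT3⟩, hT4⟩ := hT
  have hsum := sum_dev hV h1 hl
  have hneg : ∀ w : V, pay pp (fun _ => 0) x (Sum.inl (w, !b) : St V) =
      -pay pp (fun _ => 0) x (Sum.inl (w, b) : St V) := by
    intro w
    cases b
    · show pay pp (fun _ => 0) x (Sum.inl (w, true) : St V) = _
      rw [pay_pos h1 hl w, pay_neg h1 hl w, neg_neg]
    · show pay pp (fun _ => 0) x (Sum.inl (w, false) : St V) = _
      rw [pay_pos h1 hl w, pay_neg h1 hl w]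
  have hvT : (Sum.inl (v, !b) : St V) ∉ T := by
    intro h
    have h5 := hT4 _ h (Sum.inl (v, b) : St V)
    rw [hneg v] at h5
    linarith
  refine ⟨⟨?_, ?_, ?_⟩, ?_⟩
  · intro S S' hS hS'
    have hS1 : (Sum.inr S : St V) ∈ T := by
      rcases mem_insert.1 hS with h | h
      · exact absurd h (by simp)
      · exact h
    have hS2 : (Sum.inr S' : St V) ∈ T := by
      rcases mem_insert.1 hS' with h | h
      · exact absurd h (by simp)
      · exact h
    exact hT1 S S' hS1 hS2
  · rintro w ⟨hw1, hw2⟩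
    rcases mem_insert.1 hw1 with h | h
    · have h6 : w = v ∧ true = b := by simpa using h
      obtain ⟨rfl, rfl⟩ := h6
      rcases mem_insert.1 hw2 with h' | h'
      · exact absurd h' (by simp)
      · exact hvT h'
    · rcases mem_insert.1 hw2 with h' | h'
      · have h6 : w = v ∧ false = b := by simpa using h'
        obtain ⟨rfl, rfl⟩ := h6
        exact hvT h
      · exact hT2 w ⟨h, h'⟩
  · intro b'
    by_cases hb : b' = b
    · subst hb
      by_contra hcon
      push Not at hcon
      have hall : ∀ w : V, pay pp (fun _ => 0) x (Sum.inl (w, b') : St V) < 0 := by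
        intro w
        rcases mem_insert.1 (hcon w) with h | h
        · rw [h]
          exact hm
        · exact lt_of_le_of_lt (hT4 _ h (Sum.inl (v, b') : St V)) hm
      have hne : (univ : Finset V).Nonempty := ⟨v, mem_univ _⟩
      have hlt : ∑ w : V, pay pp (fun _ => 0) x (Sum.inl (w, b') : St V) < ∑ _w : V, (0 : ℝ) :=
        sum_lt_sum_of_nonempty hne fun w _ => hall w
      rw [sum_const_zero] at hlt
      have heq : ∑ w : V, pay pp (fun _ => 0) x (Sum.inl (w, b') : St V) = 0 := by
        cases b'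
        · rw [sum_congr rfl fun w _ => pay_neg h1 hl w, sum_neg_distrib, hsum, neg_zero]
        · rw [sum_congr rfl fun w _ => pay_pos h1 hl w, hsum]
      linarith
    · obtain ⟨w, hw⟩ := hT3 b'
      refine ⟨w, fun h => ?_⟩
      rcases mem_insert.1 h with h' | h'
      · have h6 : w = v ∧ b' = b := by simpa using h'
        exact hb h6.2
      · exact hw h'
  · intro S hS S'
    rcases mem_insert.1 hS with h | h
    · rw [h]
      exact hmin S'
    · exact hT4 S h S'

/-- If a nontrivial cut `S0` is a minimizer which crosses no nontrivial minimizer, it is an apex (`ac_cone`). -/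
theorem caseS {x : Sym2 V → ℝ} (S0 : NCut V) (hS : Amin pp (fun _ => 0) x ({Sum.inr S0} : Finset (St V)))
    (hX : ∀ S : NCut V, Amin pp (fun _ => 0) x ({Sum.inr S} : Finset (St V)) → NonX S0.1 S.1) :
    AC fun T : Finset (St V) => LL T ∧ Amin pp (fun _ => 0) x T := by
  classical
  refine ac_cone (a1_dn x) (Sum.inr S0 : St V) fun T hT => ?_
  obtain ⟨⟨hT1, hT2, hT3⟩, hT4⟩ := hT
  have hXT : ∀ S : NCut V, (Sum.inr S : St V) ∈ T → NonX S0.1 S.1 := by
    intro S hST
    refine hX S fun R hR S' => ?_
    rw [mem_singleton.1 hR]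
    exact hT4 _ hST S'
  have hin : ∀ w : V × Bool, (Sum.inl w : St V) ∈ insert (Sum.inr S0 : St V) T → (Sum.inl w : St V) ∈ T := by
    intro w hw
    rcases mem_insert.1 hw with h | h
    · exact absurd h (by simp)
    · exact h
  refine ⟨⟨?_, ?_, ?_⟩, ?_⟩
  · intro S S' h h'
    rcases mem_insert.1 h with h2 | h2
    · have h3 : S = S0 := Sum.inr.inj h2
      subst h3
      rcases mem_insert.1 h' with h4 | h4
      · have h5 : S' = S := Sum.inr.inj h4
        subst h5
        exact a1_nonx_self _
      · exact hXT S' h4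
    · rcases mem_insert.1 h' with h4 | h4
      · have h5 : S' = S0 := Sum.inr.inj h4
        subst h5
        exact a1_nonx_symm (hXT S h2)
      · exact hT1 S S' h2 h4
  · rintro w ⟨hw1, hw2⟩
    exact hT2 w ⟨hin _ hw1, hin _ hw2⟩
  · intro b'
    obtain ⟨w, hw⟩ := hT3 b'
    exact ⟨w, fun h => hw (hin _ h)⟩
  · intro R hR S'
    rcases mem_insert.1 hR with h | h
    · rw [h]
      exact hS _ (mem_singleton_self _) S'
    · exact hT4 R h S'

end H96H
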