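import Pool.Agent.Lib.H96H.A0

/-! # H96H, chunk C1: the column sums of the payoff matrix -/

set_option autoImplicit false

namespace H96H

open Finset H98P H98Z H98M H63F

variable {V : Type*} [Fintype V] [DecidableEq V]

private theorem c1_px (S : Finset V) :
    ∑ e ∈ (univ : Finset (Sym2 V)).filter (fun e => ¬ e.IsDiag), px e S =
      (S.card : ℝ) * ((univ \ S).card : ℝ) := by
  classical
  have h1 : (((univ : Finset (Sym2 V)).filter (fun e => ¬ e.IsDiag)).filter
      (fun e => ∃ a ∈ S, ∃ b, b ∉ S ∧ e = s(a, b))) =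
      (S ×ˢ (univ \ S)).image (fun p : V × V => s(p.1, p.2)) := by
    ext e
    simp only [mem_filter, mem_univ, true_and, mem_image, mem_product, mem_sdiff, Prod.exists]
    constructor
    · rintro ⟨_, a, ha, b, hb, rfl⟩
      exact ⟨a, b, ⟨ha, hb⟩, rfl⟩
    · rintro ⟨a, b, ⟨ha, hb⟩, rfl⟩
      refine ⟨?_, a, ha, b, hb, rfl⟩
      intro hd
      rw [Sym2.mk_isDiag_iff] at hd
      exact hb (hd ▸ ha)
  have h2 : ∑ e ∈ (univ : Finset (Sym2 V)).filter (fun e => ¬ e.IsDiag), px e S =
      (((((univ : Finset (Sym2 V)).filter (fun e => ¬ e.IsDiag)).filter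
      (fun e => ∃ a ∈ S, ∃ b, b ∉ S ∧ e = s(a, b)))).card : ℝ) := by
    rw [← Finset.sum_boole]
    apply Finset.sum_congr rfl
    intro e _
    unfold px
    by_cases h : ∃ a ∈ S, ∃ b, b ∉ S ∧ e = s(a, b)
    · rw [if_pos h, if_pos h]
    · rw [if_neg h, if_neg h]
  rw [h2, h1, Finset.card_image_of_injOn, Finset.card_product]
  · push_cast
    ring
  · rintro ⟨a, b⟩ hab ⟨c, d⟩ hcd h
    simp only [Finset.coe_product, Set.mem_prod, mem_coe, mem_sdiff, mem_univ, true_and] at hab hcd
    have h' : s(a, b) = s(c, d) := h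
    rw [Sym2.eq_iff] at h'
    rcases h' with ⟨h3, h4⟩ | ⟨h3, h4⟩
    · rw [h3, h4]
    · exact absurd (h3 ▸ hab.1) hcd.2

private theorem c1_card :
    (((univ : Finset (Sym2 V)).filter (fun e => ¬ e.IsDiag)).card : ℝ) =
      (Fintype.card V : ℝ) * ((Fintype.card V : ℝ) - 1) / 2 := by
  classical
  have h1 : ((univ : Finset (Sym2 V)).filter (fun e => ¬ e.IsDiag)).card = (Fintype.card V).choose 2 := by
    rw [← Sym2.card_subtype_not_diag, Fintype.card_subtype]
  rw [h1, Nat.cast_choose_two]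

private theorem c1_sum (hV : 4 ≤ Fintype.card V) (S : Finset V) :
    ∑ e ∈ (univ : Finset (Sym2 V)).filter (fun e => ¬ e.IsDiag),
      (px e S - 2 / (Fintype.card V : ℝ)) =
      (S.card : ℝ) * ((univ \ S).card : ℝ) - ((Fintype.card V : ℝ) - 1) := by
  have hn : (Fintype.card V : ℝ) ≠ 0 := by
    have : Fintype.card V ≠ 0 := by omega
    exact_mod_cast this
  rw [Finset.sum_sub_distrib, c1_px, Finset.sum_const, nsmul_eq_mul, c1_card]
  field_simp

/-- The sum of a column of `pp` over the edges of `K_n`: `0` for signed vertices. -/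
theorem sum_vert (hV : 4 ≤ Fintype.card V) (v : V) (b : Bool) :
    ∑ e ∈ (univ : Finset (Sym2 V)).filter (fun e => ¬ e.IsDiag), pp e (Sum.inl (v, b) : St V) = 0 := by
  classical
  have h1 : ∑ e ∈ (univ : Finset (Sym2 V)).filter (fun e => ¬ e.IsDiag), pp e (Sum.inl (v, b) : St V) =
      ∑ e ∈ (univ : Finset (Sym2 V)).filter (fun e => ¬ e.IsDiag),
        (if b = true then (1 : ℝ) else -1) * (px e {v} - 2 / (Fintype.card V : ℝ)) := by
    apply Finset.sum_congr rfl
    intro e he
    have hd : ¬ e.IsDiag := (mem_filter.mp he).2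
    unfold pp
    simp only [hd, if_false]
  have h2 : ((univ \ ({v} : Finset V)).card : ℝ) = (Fintype.card V : ℝ) - 1 := by
    rw [Finset.card_univ_sdiff, Finset.card_singleton, Nat.cast_sub (by omega)]
    norm_num
  rw [h1, ← Finset.mul_sum, c1_sum hV, h2, Finset.card_singleton]
  simp

/-- ... and `|S| |V - S| - (n - 1) > 0` for nontrivial cuts (`n ≥ 4`). -/
theorem sum_ncut (hV : 4 ≤ Fintype.card V) (S : NCut V) :
    0 < ∑ e ∈ (univ : Finset (Sym2 V)).filter (fun e => ¬ e.IsDiag), pp e (Sum.inr S : St V) := by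
  classical
  have h1 : ∑ e ∈ (univ : Finset (Sym2 V)).filter (fun e => ¬ e.IsDiag), pp e (Sum.inr S : St V) =
      ∑ e ∈ (univ : Finset (Sym2 V)).filter (fun e => ¬ e.IsDiag),
        (px e S.1 - 2 / (Fintype.card V : ℝ)) := by
    apply Finset.sum_congr rfl
    intro e he
    have hd : ¬ e.IsDiag := (mem_filter.mp he).2
    unfold pp
    simp only [hd, if_false]
  rw [h1, c1_sum hV]
  have h2 : (2 : ℝ) ≤ (S.1.card : ℝ) := by exact_mod_cast S.2.1
  have h3 : (2 : ℝ) ≤ ((univ \ S.1).card : ℝ) := by exact_mod_cast S.2.2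
  have h4 : (S.1.card : ℝ) + ((univ \ S.1).card : ℝ) = (Fintype.card V : ℝ) := by
    have h5 : S.1.card + (univ \ S.1).card = Fintype.card V := by
      rw [Finset.card_univ_sdiff]
      have := Finset.card_le_univ S.1
      omega
    exact_mod_cast h5
  rw [← h4]
  nlinarith [mul_nonneg (sub_nonneg.mpr h2) (sub_nonneg.mpr h3)]

end H96H
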