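import Pool.Agent.Lib.H96H.T1

/-! # H96H, chunk T2: if all tight nontrivial cuts are crossed, then `x` is a Hamiltonian cycle -/

set_option autoImplicit false

namespace H96H

open Finset H98P H98Z H98M H63F

variable {V : Type*} [Fintype V] [DecidableEq V]

omit [Fintype V] [DecidableEq V] in
private theorem t2_bw_single (x : Sym2 V → ℝ) (v : V) (D : Finset V) :
    bw x {v} D = ∑ b ∈ D, x s(v, b) := by
  simp [bw]

omit [Fintype V] [DecidableEq V] in
private theorem t2_bw_comm (x : Sym2 V → ℝ) (A B : Finset V) : bw x A B = bw x B A := by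
  unfold bw
  rw [Finset.sum_comm]
  refine Finset.sum_congr rfl fun b _ => Finset.sum_congr rfl fun a _ => ?_
  rw [Sym2.eq_swap]

omit [Fintype V] [DecidableEq V] in
private theorem t2_bw_zero {x : Sym2 V → ℝ} (h0 : ∀ e, 0 ≤ x e) {A B : Finset V} (h : bw x A B = 0)
    {a b : V} (ha : a ∈ A) (hb : b ∈ B) : x s(a, b) = 0 := by
  unfold bw at h
  have h1 := (Finset.sum_eq_zero_iff_of_nonneg (fun a _ => Finset.sum_nonneg fun b _ => h0 s(a, b))).1 h a ha
  exact (Finset.sum_eq_zero_iff_of_nonneg (fun b _ => h0 s(a, b))).1 h1 b hb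

private theorem t2_deg {x : Sym2 V → ℝ} (hl : ∀ v, x s(v, v) = 0) {l : ℝ} (hdeg : ∀ v, cutw x {v} = l)
    (v : V) : ∑ b, x s(v, b) = l := by
  have h1 := hdeg v
  rw [cutw_eq, t2_bw_single] at h1
  rw [← h1, ← Finset.sum_sdiff (Finset.subset_univ ({v} : Finset V))]
  simp [hl]

/-- adding a vertex to a set -/
private theorem t2_insert {x : Sym2 V → ℝ} {v : V} {D : Finset V} (hv : v ∉ D) :
    cutw x (insert v D) = cutw x D + cutw x {v} - 2 * ∑ b ∈ D, x s(v, b) := by
  have e1 : univ \ D = {v} ∪ (univ \ insert v D) := by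
    ext u
    simp only [mem_sdiff, mem_univ, true_and, mem_union, mem_singleton, mem_insert, not_or]
    constructor
    · intro h
      by_cases h1 : u = v
      · exact Or.inl h1
      · exact Or.inr ⟨h1, h⟩
    · rintro (h | h)
      · rw [h]; exact hv
      · exact h.2
  have d1 : Disjoint ({v} : Finset V) (univ \ insert v D) := by
    rw [Finset.disjoint_singleton_left]
    simp
  have e2 : univ \ {v} = D ∪ (univ \ insert v D) := by
    ext u
    simp only [mem_sdiff, mem_univ, true_and, mem_union, mem_singleton, mem_insert, not_or]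
    constructor
    · intro h
      by_cases h1 : u ∈ D
      · exact Or.inl h1
      · exact Or.inr ⟨h, h1⟩
    · rintro (h | h)
      · intro h2
        rw [h2] at h
        exact hv h
      · exact h.1
  have d2 : Disjoint D (univ \ insert v D) := by
    rw [Finset.disjoint_left]
    intro u hu hu2
    simp [hu] at hu2
  have c1 : cutw x D = (∑ b ∈ D, x s(v, b)) + bw x D (univ \ insert v D) := by
    rw [cutw_eq, e1]
    have : bw x D ({v} ∪ (univ \ insert v D)) = bw x D {v} + bw x D (univ \ insert v D) := by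
      unfold bw
      rw [← Finset.sum_add_distrib]
      exact Finset.sum_congr rfl fun a _ => Finset.sum_union d1
    rw [this, t2_bw_comm, t2_bw_single]
  have c2 : cutw x {v} = (∑ b ∈ D, x s(v, b)) + ∑ b ∈ univ \ insert v D, x s(v, b) := by
    rw [cutw_eq, t2_bw_single, e2, Finset.sum_union d2]
  have c3 : cutw x (insert v D) = (∑ b ∈ univ \ insert v D, x s(v, b)) + bw x D (univ \ insert v D) := by
    rw [cutw_eq]
    unfold bw
    rw [Finset.sum_insert hv]
  rw [c1, c2, c3]
  ring

private theorem t2_compl (x : Sym2 V → ℝ) (S : Finset V) : cutw x (univ \ S) = cutw x S := by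
  rw [cutw_eq, cutw_eq, t2_bw_comm]
  congr 1
  simp

/-- going down -/
private theorem t2_down {x : Sym2 V → ℝ} (h0 : ∀ e, 0 ≤ x e) {l : ℝ} (hl0 : 0 < l)
    (hdeg : ∀ v, cutw x {v} = l) (hcut : ∀ S : Finset V, S.Nonempty → S ≠ univ → l ≤ cutw x S)
    (hcr : ∀ S : NCut V, cutw x S.1 = l → ∃ S' : NCut V, cutw x S'.1 = l ∧ ¬ NonX S.1 S'.1) (v : V) :
    ∀ (k : ℕ) (D : Finset V), D.card = k → v ∉ D → cutw x D = l → ∑ b ∈ D, x s(v, b) = l / 2 →
      ∃ d ∈ D, x s(v, d) = l / 2 := by
  intro k
  induction k using Nat.strong_induction_on with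
  | _ k ih =>
    intro D hk hv hD hs
    have hne : D.Nonempty := by
      rw [Finset.nonempty_iff_ne_empty]
      intro h
      rw [h] at hs
      simp at hs
      linarith
    by_cases h1 : D.card = 1
    · obtain ⟨d, hd⟩ := Finset.card_eq_one.1 h1
      refine ⟨d, by rw [hd]; exact mem_singleton_self d, ?_⟩
      rw [hd] at hs
      simpa using hs
    · have h2 : 2 ≤ D.card := by
        have := hne.card_pos
        omega
      have h3 : 2 ≤ (univ \ D).card := by
        by_contra hlt
        have hm : v ∈ univ \ D := by simp [hv]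
        have hc1 : (univ \ D).card = 1 := by
          have := Finset.card_pos.2 ⟨v, hm⟩
          omega
        obtain ⟨w, hw⟩ := Finset.card_eq_one.1 hc1
        have hvw : v = w := by
          rw [hw] at hm
          exact mem_singleton.1 hm
        have hD2 : D = univ \ {v} := by
          rw [hvw, ← hw]
          simp
        have := hdeg v
        rw [cutw_eq, t2_bw_single, ← hD2, hs] at this
        linarith
      obtain ⟨T, hT, hX⟩ := hcr ⟨D, h2, h3⟩ hD
      obtain ⟨T, hT2⟩ := T
      simp only at hT hX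
      obtain ⟨k1, k2, k3, k4, k5⟩ := corners h0 hcut hD hT hX
      have hX' := hX
      unfold NonX at hX'
      push Not at hX'
      obtain ⟨x1, x2, x3, x4⟩ := hX'
      have hsplit : ∑ b ∈ D, x s(v, b) = (∑ b ∈ D ∩ T, x s(v, b)) + ∑ b ∈ D \ T, x s(v, b) := by
        rw [← Finset.sum_inter_add_sum_sdiff D T]
      have hcard : (D ∩ T).card + (D \ T).card = D.card := Finset.card_inter_add_card_sdiff D T
      have hp1 : 0 < (D ∩ T).card := by
        apply Finset.card_pos.2
        rw [Finset.nonempty_iff_ne_empty]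
        intro h
        simp [h] at x1
      have hp2 : 0 < (D \ T).card := by
        apply Finset.card_pos.2
        rw [Finset.nonempty_iff_ne_empty]
        intro h
        exact x2 (Finset.sdiff_eq_empty_iff_subset.1 h)
      by_cases hvT : v ∈ T
      · have hz : ∑ b ∈ D \ T, x s(v, b) = 0 := by
          refine Finset.sum_eq_zero fun b hb => ?_
          rw [Sym2.eq_swap]
          exact t2_bw_zero h0 k5 hb (by simp [hv, hvT])
        rw [hz, add_zero] at hsplit
        obtain ⟨d, hd, hd2⟩ := ih (D ∩ T).card (by omega) (D ∩ T) rfl (fun h => hv (mem_inter.1 h).1) k1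
          (by rw [← hsplit]; exact hs)
        exact ⟨d, (mem_inter.1 hd).1, hd2⟩
      · have hz : ∑ b ∈ D ∩ T, x s(v, b) = 0 := by
          refine Finset.sum_eq_zero fun b hb => ?_
          rw [Sym2.eq_swap]
          exact t2_bw_zero h0 k4 hb (by simp [hv, hvT])
        rw [hz, zero_add] at hsplit
        obtain ⟨d, hd, hd2⟩ := ih (D \ T).card (by omega) (D \ T) rfl (fun h => hv (mem_sdiff.1 h).1) k2
          (by rw [← hsplit]; exact hs)
        exact ⟨d, (mem_sdiff.1 hd).1, hd2⟩

/-- PROOF (PROOF.md, lemma (*)): `D_v` = tight `D`, `v ∉ D`, `bw {v} D = l/2`. A minimal tight nontrivial cut has two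
elements `a`, `b`, `x s(a,b) = l/2`. Every `D ∈ D_v` contains some `d` with `x s(v,d) = l/2` (strong induction on the
cardinality: `D` with at least two elements is a nontrivial cut, crossed by a tight `T'`; by `corners` one of
`D ∩ T'`, `D \ T'` is in `D_v`). The complement of `D ∪ {v}` is in `D_v` as well. So the set `W` of the vertices with
exactly two edges of weight `l/2` is nonempty and every edge of positive weight at a vertex of `W` has weight `l/2` and
goes to `W`; its boundary is `0`, so `W = univ`. -/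
theorem tight_lemma {x : Sym2 V → ℝ} (h0 : ∀ e, 0 ≤ x e) (hl : ∀ v, x s(v, v) = 0) {l : ℝ} (hl0 : 0 < l)
    (hdeg : ∀ v, cutw x {v} = l) (hcut : ∀ S : Finset V, S.Nonempty → S ≠ univ → l ≤ cutw x S)
    (hex : ∃ S : NCut V, cutw x S.1 = l)
    (hcr : ∀ S : NCut V, cutw x S.1 = l → ∃ S' : NCut V, cutw x S'.1 = l ∧ ¬ NonX S.1 S'.1) :
    ∀ e, x e = 0 ∨ x e = l / 2 := by
  classical
  -- the start
  have hstart : ∃ a b : V, a ≠ b ∧ x s(a, b) = l / 2 := by
    obtain ⟨S, hS, hmin⟩ : ∃ S : NCut V, cutw x S.1 = l ∧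
        ∀ S' : NCut V, cutw x S'.1 = l → S.1.card ≤ S'.1.card := by
      have hne : ((univ : Finset (NCut V)).filter fun S => cutw x S.1 = l).Nonempty := by
        obtain ⟨S, hS⟩ := hex
        exact ⟨S, by simp [hS]⟩
      obtain ⟨S, hS, hm⟩ := Finset.exists_min_image _ (fun S : NCut V => S.1.card) hne
      refine ⟨S, (mem_filter.1 hS).2, fun S' hS' => hm S' (by simp [hS'])⟩
    obtain ⟨T, hT, hX⟩ := hcr S hS
    obtain ⟨S, hS1, hS2⟩ := S
    obtain ⟨T, hT2⟩ := T
    simp only at hS hT hX hmin
    obtain ⟨k1, k2, k3, k4, k5⟩ := corners h0 hcut hS hT hX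
    have hX' := hX
    unfold NonX at hX'
    push Not at hX'
    obtain ⟨x1, x2, x3, x4⟩ := hX'
    have hcard : (S ∩ T).card + (S \ T).card = S.card := Finset.card_inter_add_card_sdiff S T
    have hp1 : 0 < (S ∩ T).card := by
      apply Finset.card_pos.2
      rw [Finset.nonempty_iff_ne_empty]
      intro h
      simp [h] at x1
    have hp2 : 0 < (S \ T).card := by
      apply Finset.card_pos.2
      rw [Finset.nonempty_iff_ne_empty]
      intro h
      exact x2 (Finset.sdiff_eq_empty_iff_subset.1 h)
    have hsmall : ∀ D : Finset V, D ⊆ S → cutw x D = l → D.card < S.card → ¬ 2 ≤ D.card := by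
      intro D hDS hD hlt h2
      have h3 : 2 ≤ (univ \ D).card :=
        hS2.trans (Finset.card_le_card (Finset.sdiff_subset_sdiff (Finset.Subset.refl _) hDS))
      have := hmin ⟨D, h2, h3⟩ hD
      simp only at this
      omega
    have q1 : (S ∩ T).card = 1 := by
      have := hsmall (S ∩ T) Finset.inter_subset_left k1 (by omega)
      omega
    have q2 : (S \ T).card = 1 := by
      have := hsmall (S \ T) Finset.sdiff_subset k2 (by omega)
      omega
    obtain ⟨a, ha⟩ := Finset.card_eq_one.1 q1
    obtain ⟨b, hb⟩ := Finset.card_eq_one.1 q2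
    have hab : a ≠ b := by
      intro h
      have m1 : a ∈ S ∩ T := by rw [ha]; exact mem_singleton_self a
      have m2 : a ∈ S \ T := by rw [hb, h]; exact mem_singleton_self b
      exact (mem_sdiff.1 m2).2 (mem_inter.1 m1).2
    have hSab : S = insert a {b} := by
      have h := Finset.sdiff_union_inter S T
      rw [ha, hb] at h
      rw [← h]
      ext u
      simp [or_comm]
    have h1 := t2_insert (x := x) (v := a) (D := {b}) (by simpa using hab)
    rw [← hSab, hS, hdeg, hdeg] at h1
    simp only [sum_singleton] at h1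
    exact ⟨a, b, hab, by linarith⟩
  -- two edges
  have htwo : ∀ v : V, ∀ D : Finset V, v ∉ D → cutw x D = l → ∑ b ∈ D, x s(v, b) = l / 2 →
      ∀ b, x s(v, b) = 0 ∨ x s(v, b) = l / 2 := by
    intro v D hv hD hs b
    obtain ⟨d1, hd1, e1⟩ := t2_down h0 hl0 hdeg hcut hcr v D.card D rfl hv hD hs
    have hD' : cutw x (univ \ insert v D) = l := by
      rw [t2_compl, t2_insert hv, hD, hdeg, hs]
      ring
    have hdeg' := t2_deg hl hdeg v
    have hs' : ∑ b ∈ univ \ insert v D, x s(v, b) = l / 2 := by
      have h1 := Finset.sum_sdiff (f := fun b => x s(v, b)) (Finset.subset_univ (insert v D))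
      rw [hdeg', Finset.sum_insert hv, hl, hs] at h1
      linarith
    obtain ⟨d2, hd2, e2⟩ := t2_down h0 hl0 hdeg hcut hcr v _ (univ \ insert v D) rfl (by simp) hD' hs'
    have hne : d1 ≠ d2 := by
      rintro rfl
      simp [hd1] at hd2
    by_cases hb1 : b = d1
    · exact Or.inr (by rw [hb1]; exact e1)
    · by_cases hb2 : b = d2
      · exact Or.inr (by rw [hb2]; exact e2)
      · left
        have h1 := Finset.sum_sdiff (f := fun b => x s(v, b)) (Finset.subset_univ {d1, d2, b})
        rw [hdeg'] at h1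
        have h2 : ∑ u ∈ ({d1, d2, b} : Finset V), x s(v, u) = l / 2 + (l / 2 + x s(v, b)) := by
          rw [Finset.sum_insert (by simp [hne, Ne.symm hb1]), Finset.sum_insert (by simp [Ne.symm hb2]),
            Finset.sum_singleton, e1, e2]
        rw [h2] at h1
        have h3 : 0 ≤ ∑ u ∈ univ \ ({d1, d2, b} : Finset V), x s(v, u) :=
          Finset.sum_nonneg fun u _ => h0 _
        have h4 := h0 s(v, b)
        linarith
  -- the set W
  set W : Finset V := univ.filter fun v => ∃ D : Finset V, v ∉ D ∧ cutw x D = l ∧ ∑ b ∈ D, x s(v, b) = l / 2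
    with hW
  have hstep : ∀ v b : V, x s(v, b) = l / 2 → b ∈ W := by
    intro v b h
    rw [hW, mem_filter]
    refine ⟨mem_univ _, {v}, ?_, hdeg v, ?_⟩
    · rw [mem_singleton]
      rintro rfl
      rw [hl] at h
      linarith
    · rw [sum_singleton, Sym2.eq_swap]
      exact h
  have hWne : W.Nonempty := by
    obtain ⟨a, b, _, h⟩ := hstart
    exact ⟨b, hstep a b h⟩
  have hWu : W = univ := by
    by_contra hne
    have h1 := hcut W hWne hne
    have h2 : cutw x W = 0 := by
      rw [cutw_eq]
      unfold bw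
      refine Finset.sum_eq_zero fun v hv => Finset.sum_eq_zero fun b hb => ?_
      obtain ⟨D, d1, d2, d3⟩ := (mem_filter.1 hv).2
      rcases htwo v D d1 d2 d3 b with h | h
      · exact h
      · exact absurd (hstep v b h) (mem_sdiff.1 hb).2
    linarith
  intro e
  induction e using Sym2.ind with
  | _ v b =>
    have hv : v ∈ W := by rw [hWu]; exact mem_univ v
    obtain ⟨D, d1, d2, d3⟩ := (mem_filter.1 hv).2
    exact htwo v D d1 d2 d3 b

end H96H
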