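import Pool.Agent.Lib.H96H.A2
import Pool.Agent.Lib.H96H.T2

/-! # H96H, chunk A3: hypothesis (a) -/

set_option autoImplicit false

namespace H96H

open Finset H98P H98Z H98M H63F

variable {V : Type*} [Fintype V] [DecidableEq V]

private theorem a3_px_compl (e : Sym2 V) (S : Finset V) : px e (univ \ S) = px e S := by
  unfold px
  have h : (∃ a ∈ univ \ S, ∃ b, b ∉ univ \ S ∧ e = s(a, b)) ↔
      ∃ a ∈ S, ∃ b, b ∉ S ∧ e = s(a, b) := by
    constructor
    · rintro ⟨a, ha, b, hb, he⟩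
      refine ⟨b, ?_, a, ?_, ?_⟩
      · by_contra hb'
        exact hb (Finset.mem_sdiff.2 ⟨Finset.mem_univ b, hb'⟩)
      · exact (Finset.mem_sdiff.1 ha).2
      · rw [he, Sym2.eq_swap]
    · rintro ⟨a, ha, b, hb, he⟩
      refine ⟨b, Finset.mem_sdiff.2 ⟨Finset.mem_univ b, hb⟩, a, ?_, ?_⟩
      · intro ha'
        exact (Finset.mem_sdiff.1 ha').2 ha
      · rw [he, Sym2.eq_swap]
  by_cases h2 : ∃ a ∈ S, ∃ b, b ∉ S ∧ e = s(a, b)
  · rw [if_pos h2, if_pos (h.2 h2)]
  · rw [if_neg h2, if_neg fun h3 => h2 (h.1 h3)]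

private theorem a3_cutw_compl (x : Sym2 V → ℝ) (S : Finset V) : cutw x (univ \ S) = cutw x S := by
  unfold cutw
  exact Finset.sum_congr rfl fun e _ => by rw [a3_px_compl]

/-- Hypothesis (a). PROOF: a minimizer exists. If no signed vertex is one: `caseN`. If one is and its payoff is
negative: `caseV`. Otherwise all payoffs are `≥ 0`, so all `cutw x {v} = 2/n` (`pay_pos`, `pay_neg`), all
`cutw x S ≥ 2/n` (trivial cuts: `{v}` and complements, `cutw` is symmetric under complement); `¬ Good x` gives a tight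
nontrivial cut and excludes the conclusion of `tight_lemma` (`l = 2/n`), so some tight nontrivial `S0` is crossed by no
tight one: `caseS`. -/
theorem hyp_a (hV : 4 ≤ Fintype.card V) {x : Sym2 V → ℝ} (h0 : ∀ e, 0 ≤ x e) (h1 : ∑ e, x e = 1)
    (hl : ∀ v, x s(v, v) = 0) (hg : ¬ Good x) :
    AC fun T : Finset (St V) => LL T ∧ Amin pp (fun _ => 0) x T := by
  by_cases hN : ∀ (v : V) (b : Bool), ¬ Amin pp (fun _ => 0) x ({Sum.inl (v, b)} : Finset (St V))
  · exact caseN hV h0 h1 hl hN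
  push Not at hN
  obtain ⟨v, b, hv⟩ := hN
  by_cases hP : pay pp (fun _ => 0) x (Sum.inl (v, b) : St V) < 0
  · exact caseV hV h1 hl v b hv hP
  push Not at hP
  have hall : ∀ S' : St V, 0 ≤ pay pp (fun _ => 0) x S' := fun S' =>
    hP.trans (hv _ (Finset.mem_singleton_self _) S')
  have hn : (0 : ℝ) < Fintype.card V := by
    have : 0 < Fintype.card V := by omega
    exact_mod_cast this
  have hl0 : (0 : ℝ) < 2 / (Fintype.card V : ℝ) := by positivity
  have hdeg : ∀ u, cutw x {u} = 2 / (Fintype.card V : ℝ) := by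
    intro u
    have e1 := hall (Sum.inl (u, true))
    have e2 := hall (Sum.inl (u, false))
    rw [pay_pos h1 hl] at e1
    rw [pay_neg h1 hl] at e2
    linarith
  have hN' : ∀ S : NCut V, 2 / (Fintype.card V : ℝ) ≤ cutw x S.1 := by
    intro S
    have e1 := hall (Sum.inr S)
    rw [pay_cut h1 hl] at e1
    linarith
  have hcut : ∀ S : Finset V, S.Nonempty → S ≠ univ → 2 / (Fintype.card V : ℝ) ≤ cutw x S := by
    intro S hS hS'
    have hc : (univ \ S).Nonempty := by
      rw [Finset.sdiff_nonempty]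
      intro h
      exact hS' (Finset.univ_subset_iff.1 h)
    by_cases c1 : S.card = 1
    · obtain ⟨u, hu⟩ := Finset.card_eq_one.1 c1
      rw [hu, hdeg]
    by_cases c2 : (univ \ S).card = 1
    · obtain ⟨u, hu⟩ := Finset.card_eq_one.1 c2
      rw [← a3_cutw_compl, hu, hdeg]
    have d1 := Finset.card_pos.2 hS
    have d2 := Finset.card_pos.2 hc
    exact hN' ⟨S, by omega, by omega⟩
  have hG : ¬ ((∀ e, x e = 0 ∨ x e = 1 / (Fintype.card V : ℝ)) ∨
      ∀ S : NCut V, 2 / (Fintype.card V : ℝ) < cutw x S.1) := fun h => hg ⟨hdeg, hcut, h⟩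
  rw [not_or] at hG
  obtain ⟨g1, g2⟩ := hG
  push Not at g2
  obtain ⟨S1, hS1⟩ := g2
  have hex : ∃ S : NCut V, cutw x S.1 = 2 / (Fintype.card V : ℝ) := ⟨S1, le_antisymm hS1 (hN' S1)⟩
  have hcr : ¬ ∀ S : NCut V, cutw x S.1 = 2 / (Fintype.card V : ℝ) →
      ∃ S' : NCut V, cutw x S'.1 = 2 / (Fintype.card V : ℝ) ∧ ¬ NonX S.1 S'.1 := by
    intro hcr
    apply g1
    intro e
    have e1 := tight_lemma h0 hl hl0 hdeg hcut hex hcr e
    have e2 : 2 / (Fintype.card V : ℝ) / 2 = 1 / (Fintype.card V : ℝ) := by ring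
    rwa [e2] at e1
  push Not at hcr
  obtain ⟨S0, hS0, hX⟩ := hcr
  have hp0 : pay pp (fun _ => 0) x (Sum.inr S0 : St V) = 0 := by
    rw [pay_cut h1 hl, hS0, sub_self]
  refine caseS S0 ?_ fun S hS => hX S ?_
  · intro S hS S'
    rw [Finset.mem_singleton.1 hS, hp0]
    exact hall S'
  · have e1 := hS _ (Finset.mem_singleton_self _) (Sum.inr S0)
    rw [hp0, pay_cut h1 hl] at e1
    linarith [hN' S]

end H96H
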