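import Pool.Agent.Lib.H96H.D
import Pool.Agent.Lib.H63F.G3

/-! # H96H, chunk B1: the plane edge sets form an acyclic complex -/

set_option autoImplicit false

namespace H96H

open Finset H98P H98Z H98M H63F

variable {V : Type*} [Fintype V] [DecidableEq V]

/-- The plane edge sets without loops form an acyclic complex. PROOF: `H63F.acy_multi` for the set of all edges that
are not loops. -/
theorem ac_KK (hV : 4 ≤ Fintype.card V) {cross : Sym2 V → Sym2 V → Prop}
    (hsymm : ∀ e f, cross e f → cross f e) (hHD : ∀ W : Finset V, HD cross W) :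
    AC fun G : Finset (Sym2 V) => KK cross G := by
  classical
  set D : Finset (Sym2 V) := univ.filter fun e => ¬ e.IsDiag with hDdef
  have hD : ∀ e, e ∈ D ↔ ¬ e.IsDiag := fun e => by
    rw [hDdef, mem_filter]
    exact ⟨fun h => h.2, fun h => ⟨mem_univ e, h⟩⟩
  have hDab : ∀ a b : V, s(a, b) ∈ D ↔ a ≠ b := fun a b => by
    rw [hD, Sym2.mk_isDiag_iff]
  have hne : D.Nonempty := by
    obtain ⟨a, b, hab⟩ := Fintype.exists_pair_of_one_lt_card (α := V) (by omega)
    exact ⟨s(a, b), (hDab a b).2 hab⟩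
  have hloop : ∀ v, s(v, v) ∉ D := fun v hv => (hDab v v).1 hv rfl
  have hmp : ∀ u v w z, s(u, v) ∉ D → s(v, w) ∉ D → s(v, z) ∈ D → s(u, w) ∉ D := by
    intro u v w z h1 h2 _ h4
    have e1 : u = v := by
      by_contra h
      exact h1 ((hDab u v).2 h)
    have e2 : v = w := by
      by_contra h
      exact h2 ((hDab v w).2 h)
    exact (hDab u w).1 h4 (e1.trans e2)
  have hA : Acy cross D := acy_multi hsymm hHD hne hloop hmp
  have hiff : ∀ G : Finset (Sym2 V), KK cross G ↔ (G ⊆ D ∧ Plane cross G) := by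
    intro G
    constructor
    · rintro ⟨h1, h2⟩
      refine ⟨fun e he => ?_, h1⟩
      induction e with
      | _ a b =>
        rw [hDab]
        rintro rfl
        exact h2 a he
    · rintro ⟨h1, h2⟩
      exact ⟨h2, fun v hv => hloop v (h1 hv)⟩
  intro z hz hb
  obtain ⟨c, hc, hcb⟩ := hA z (fun s hs => (hiff s).1 (hz s hs)) hb
  exact ⟨c, fun s hs => (hiff s).2 (hc s hs), hcb⟩

end H96H
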