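import Pool.Agent.Lib.H96H.D

/-! # H96H, chunk T1: crossing tight cuts -/

set_option autoImplicit false

namespace H96H

open Finset H98P H98Z H98M H63F

variable {V : Type*} [Fintype V] [DecidableEq V]

/-- The weight of the edges between `A` and `B` (disjoint). -/
noncomputable def bw (x : Sym2 V → ℝ) (A B : Finset V) : ℝ := ∑ a ∈ A, ∑ b ∈ B, x s(a, b)

private theorem T1_px (a b : V) (S : Finset V) : px s(a, b) S = if (a ∈ S ↔ b ∈ S) then 0 else 1 := by
  unfold px
  by_cases ha : a ∈ S <;> by_cases hb : b ∈ S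
  · rw [if_neg, if_pos (by simp [ha, hb])]
    rintro ⟨x, hx, y, hy, h⟩
    rcases Sym2.eq_iff.1 h with ⟨h1, h2⟩ | ⟨h1, h2⟩
    · exact hy (h2 ▸ hb)
    · exact hy (h1 ▸ ha)
  · rw [if_pos ⟨a, ha, b, hb, rfl⟩, if_neg (by simp [ha, hb])]
  · rw [if_pos ⟨b, hb, a, ha, Sym2.eq_swap⟩, if_neg (by simp [ha, hb])]
  · rw [if_neg, if_pos (by simp [ha, hb])]
    rintro ⟨x, hx, y, hy, h⟩
    rcases Sym2.eq_iff.1 h with ⟨h1, h2⟩ | ⟨h1, h2⟩
    · exact ha (h1 ▸ hx)
    · exact hb (h2 ▸ hx)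

private theorem T1_comm (x : Sym2 V → ℝ) (A B : Finset V) : bw x A B = bw x B A := by
  unfold bw
  rw [Finset.sum_comm]
  refine Finset.sum_congr rfl fun b _ => Finset.sum_congr rfl fun a _ => ?_
  rw [Sym2.eq_swap]

private theorem T1_left (x : Sym2 V → ℝ) {A A' : Finset V} (h : Disjoint A A') (B : Finset V) :
    bw x (A ∪ A') B = bw x A B + bw x A' B := by
  unfold bw
  exact Finset.sum_union h

private theorem T1_right (x : Sym2 V → ℝ) (A : Finset V) {B B' : Finset V} (h : Disjoint B B') :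
    bw x A (B ∪ B') = bw x A B + bw x A B' := by
  rw [T1_comm, T1_left x h, T1_comm x B A, T1_comm x B' A]

private theorem T1_nonneg {x : Sym2 V → ℝ} (h0 : ∀ e, 0 ≤ x e) (A B : Finset V) : 0 ≤ bw x A B :=
  Finset.sum_nonneg fun _ _ => Finset.sum_nonneg fun _ _ => h0 _

/-- `cutw` as a double sum. -/
theorem cutw_eq {x : Sym2 V → ℝ} (S : Finset V) : cutw x S = bw x S (univ \ S) := by
  have hpx : ∀ e : Sym2 V, e ∉ (S ×ˢ (univ \ S)).image (fun p => s(p.1, p.2)) → px e S = 0 := by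
    intro e he
    induction e using Sym2.ind with
    | _ a b =>
      rw [T1_px]
      by_cases ha : a ∈ S <;> by_cases hb : b ∈ S
      · simp [ha, hb]
      · refine absurd (Finset.mem_image.2 ⟨(a, b), Finset.mem_product.2 ⟨ha, ?_⟩, rfl⟩) he
        exact Finset.mem_sdiff.2 ⟨Finset.mem_univ _, hb⟩
      · have h5 : s(b, a) ∈ (S ×ˢ (univ \ S)).image (fun p => s(p.1, p.2)) :=
          Finset.mem_image.2 ⟨(b, a), Finset.mem_product.2 ⟨hb, Finset.mem_sdiff.2 ⟨Finset.mem_univ _, ha⟩⟩, rfl⟩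
        rw [Sym2.eq_swap] at h5
        exact absurd h5 he
      · simp [ha, hb]
  have h1 : cutw x S = ∑ e ∈ (S ×ˢ (univ \ S)).image (fun p => s(p.1, p.2)), x e * px e S := by
    unfold cutw
    refine (Finset.sum_subset (Finset.subset_univ _) fun e _ he => ?_).symm
    rw [hpx e he, mul_zero]
  rw [h1, Finset.sum_image]
  · unfold bw
    rw [← Finset.sum_product']
    refine Finset.sum_congr rfl fun p hp => ?_
    obtain ⟨hp1, hp2⟩ := Finset.mem_product.1 hp
    have hp3 : p.2 ∉ S := (Finset.mem_sdiff.1 hp2).2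
    rw [T1_px, if_neg (by simp [hp1, hp3]), mul_one]
  · intro p hp q hq h
    obtain ⟨hp1, hp2⟩ := Finset.mem_product.1 (Finset.mem_coe.1 hp)
    obtain ⟨hq1, hq2⟩ := Finset.mem_product.1 (Finset.mem_coe.1 hq)
    have hp3 : p.2 ∉ S := (Finset.mem_sdiff.1 hp2).2
    have hq3 : q.2 ∉ S := (Finset.mem_sdiff.1 hq2).2
    rcases Sym2.eq_iff.1 h with ⟨h2, h3⟩ | ⟨h2, h3⟩
    · exact Prod.ext h2 h3
    · exact absurd (h2 ▸ hp1) hq3

/-- Two crossing tight cuts: the four corners are tight and the diagonals are empty. PROOF: submodularity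
(`cutw_eq`): `cutw S + cutw T = cutw (S ∩ T) + cutw (S ∪ T) + 2 bw (S \ T) (T \ S)` and the same with `T` replaced by its
complement. -/
theorem corners {x : Sym2 V → ℝ} (h0 : ∀ e, 0 ≤ x e) {l : ℝ}
    (hcut : ∀ S : Finset V, S.Nonempty → S ≠ univ → l ≤ cutw x S) {S T : Finset V} (hS : cutw x S = l)
    (hT : cutw x T = l) (hX : ¬ NonX S T) :
    cutw x (S ∩ T) = l ∧ cutw x (S \ T) = l ∧ cutw x (T \ S) = l ∧ bw x (S ∩ T) (univ \ (S ∪ T)) = 0 ∧
      bw x (S \ T) (T \ S) = 0 := by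
  have hP1 : (S ∩ T).Nonempty := by
    rw [Finset.nonempty_iff_ne_empty]
    exact fun h => hX (Or.inl h)
  have hP2 : (S \ T).Nonempty := by
    rw [Finset.nonempty_iff_ne_empty]
    exact fun h => hX (Or.inr (Or.inl (Finset.sdiff_eq_empty_iff_subset.1 h)))
  have hP3 : (T \ S).Nonempty := by
    rw [Finset.nonempty_iff_ne_empty]
    exact fun h => hX (Or.inr (Or.inr (Or.inl (Finset.sdiff_eq_empty_iff_subset.1 h))))
  have hP4 : (univ \ (S ∪ T)).Nonempty := by
    rw [Finset.nonempty_iff_ne_empty]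
    intro h
    exact hX (Or.inr (Or.inr (Or.inr (Finset.univ_subset_iff.1 (Finset.sdiff_eq_empty_iff_subset.1 h)))))
  have n1 : S ∩ T ≠ univ := by
    intro h
    obtain ⟨v, hv⟩ := hP2
    have := Finset.mem_univ v
    rw [← h] at this
    exact (Finset.mem_sdiff.1 hv).2 (Finset.mem_inter.1 this).2
  have n2 : S \ T ≠ univ := by
    intro h
    obtain ⟨v, hv⟩ := hP1
    have := Finset.mem_univ v
    rw [← h] at this
    exact (Finset.mem_sdiff.1 this).2 (Finset.mem_inter.1 hv).2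
  have n3 : T \ S ≠ univ := by
    intro h
    obtain ⟨v, hv⟩ := hP1
    have := Finset.mem_univ v
    rw [← h] at this
    exact (Finset.mem_sdiff.1 this).2 (Finset.mem_inter.1 hv).1
  have n4 : univ \ (S ∪ T) ≠ univ := by
    intro h
    obtain ⟨v, hv⟩ := hP1
    have := Finset.mem_univ v
    rw [← h] at this
    exact (Finset.mem_sdiff.1 this).2 (Finset.mem_union_left _ (Finset.mem_inter.1 hv).1)
  have c1 := hcut _ hP1 n1
  have c2 := hcut _ hP2 n2
  have c3 := hcut _ hP3 n3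
  have c4 := hcut _ hP4 n4
  set P1 := S ∩ T with hP1d
  set P2 := S \ T with hP2d
  set P3 := T \ S with hP3d
  set P4 := univ \ (S ∪ T) with hP4d
  have d12 : Disjoint P1 P2 := by
    rw [Finset.disjoint_left]
    intro v h1 h2
    rw [hP1d, Finset.mem_inter] at h1
    rw [hP2d, Finset.mem_sdiff] at h2
    exact h2.2 h1.2
  have d13 : Disjoint P1 P3 := by
    rw [Finset.disjoint_left]
    intro v h1 h2
    rw [hP1d, Finset.mem_inter] at h1
    rw [hP3d, Finset.mem_sdiff] at h2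
    exact h2.2 h1.1
  have d14 : Disjoint P1 P4 := by
    rw [Finset.disjoint_left]
    intro v h1 h2
    rw [hP1d, Finset.mem_inter] at h1
    rw [hP4d, Finset.mem_sdiff, Finset.mem_union] at h2
    exact h2.2 (Or.inl h1.1)
  have d23 : Disjoint P2 P3 := by
    rw [Finset.disjoint_left]
    intro v h1 h2
    rw [hP2d, Finset.mem_sdiff] at h1
    rw [hP3d, Finset.mem_sdiff] at h2
    exact h2.2 h1.1
  have d24 : Disjoint P2 P4 := by
    rw [Finset.disjoint_left]
    intro v h1 h2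
    rw [hP2d, Finset.mem_sdiff] at h1
    rw [hP4d, Finset.mem_sdiff, Finset.mem_union] at h2
    exact h2.2 (Or.inl h1.1)
  have d34 : Disjoint P3 P4 := by
    rw [Finset.disjoint_left]
    intro v h1 h2
    rw [hP3d, Finset.mem_sdiff] at h1
    rw [hP4d, Finset.mem_sdiff, Finset.mem_union] at h2
    exact h2.2 (Or.inr h1.1)
  have eS : S = P1 ∪ P2 := by
    ext v
    rw [hP1d, hP2d, Finset.mem_union, Finset.mem_inter, Finset.mem_sdiff]
    tauto
  have eS' : univ \ S = P3 ∪ P4 := by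
    ext v
    rw [hP3d, hP4d, Finset.mem_union, Finset.mem_sdiff, Finset.mem_sdiff, Finset.mem_sdiff, Finset.mem_union]
    have := Finset.mem_univ v
    tauto
  have eT : T = P1 ∪ P3 := by
    ext v
    rw [hP1d, hP3d, Finset.mem_union, Finset.mem_inter, Finset.mem_sdiff]
    tauto
  have eT' : univ \ T = P2 ∪ P4 := by
    ext v
    rw [hP2d, hP4d, Finset.mem_union, Finset.mem_sdiff, Finset.mem_sdiff, Finset.mem_sdiff, Finset.mem_union]
    have := Finset.mem_univ v
    tauto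
  have e1 : univ \ P1 = P2 ∪ (P3 ∪ P4) := by
    ext v
    rw [hP1d, hP2d, hP3d, hP4d, Finset.mem_union, Finset.mem_union, Finset.mem_sdiff, Finset.mem_sdiff,
      Finset.mem_sdiff, Finset.mem_sdiff, Finset.mem_union, Finset.mem_inter]
    have := Finset.mem_univ v
    tauto
  have e2 : univ \ P2 = P1 ∪ (P3 ∪ P4) := by
    ext v
    rw [hP1d, hP2d, hP3d, hP4d, Finset.mem_union, Finset.mem_union, Finset.mem_sdiff, Finset.mem_sdiff,
      Finset.mem_sdiff, Finset.mem_sdiff, Finset.mem_union, Finset.mem_inter]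
    have := Finset.mem_univ v
    tauto
  have e3 : univ \ P3 = P1 ∪ (P2 ∪ P4) := by
    ext v
    rw [hP1d, hP2d, hP3d, hP4d, Finset.mem_union, Finset.mem_union, Finset.mem_sdiff, Finset.mem_sdiff,
      Finset.mem_sdiff, Finset.mem_sdiff, Finset.mem_union, Finset.mem_inter]
    have := Finset.mem_univ v
    tauto
  have e4 : univ \ P4 = P1 ∪ (P2 ∪ P3) := by
    ext v
    rw [hP1d, hP2d, hP3d, hP4d, Finset.mem_union, Finset.mem_union, Finset.mem_sdiff, Finset.mem_sdiff,
      Finset.mem_sdiff, Finset.mem_sdiff, Finset.mem_union, Finset.mem_inter]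
    have := Finset.mem_univ v
    tauto
  have s1 : cutw x P1 = bw x P1 P2 + (bw x P1 P3 + bw x P1 P4) := by
    rw [cutw_eq, e1, T1_right x _ (Finset.disjoint_union_right.2 ⟨d23, d24⟩), T1_right x _ d34]
  have s2 : cutw x P2 = bw x P1 P2 + (bw x P2 P3 + bw x P2 P4) := by
    rw [cutw_eq, e2, T1_right x _ (Finset.disjoint_union_right.2 ⟨d13, d14⟩), T1_right x _ d34, T1_comm x P2 P1]
  have s3 : cutw x P3 = bw x P1 P3 + (bw x P2 P3 + bw x P3 P4) := by
    rw [cutw_eq, e3, T1_right x _ (Finset.disjoint_union_right.2 ⟨d12, d14⟩), T1_right x _ d24, T1_comm x P3 P1,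
      T1_comm x P3 P2]
  have s4 : cutw x P4 = bw x P1 P4 + (bw x P2 P4 + bw x P3 P4) := by
    rw [cutw_eq, e4, T1_right x _ (Finset.disjoint_union_right.2 ⟨d12, d13⟩), T1_right x _ d23, T1_comm x P4 P1,
      T1_comm x P4 P2, T1_comm x P4 P3]
  have s5 : cutw x S = (bw x P1 P3 + bw x P1 P4) + (bw x P2 P3 + bw x P2 P4) := by
    rw [cutw_eq, eS', T1_right x _ d34]
    have q1 : bw x S P3 = bw x P1 P3 + bw x P2 P3 := by
      rw [← T1_left x d12, ← eS]
    have q2 : bw x S P4 = bw x P1 P4 + bw x P2 P4 := by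
      rw [← T1_left x d12, ← eS]
    rw [q1, q2]
    ring
  have s6 : cutw x T = (bw x P1 P2 + bw x P1 P4) + (bw x P2 P3 + bw x P3 P4) := by
    rw [cutw_eq, eT', T1_right x _ d24]
    have q1 : bw x T P2 = bw x P1 P2 + bw x P2 P3 := by
      rw [T1_comm x P2 P3, ← T1_left x d13, ← eT]
    have q2 : bw x T P4 = bw x P1 P4 + bw x P3 P4 := by
      rw [← T1_left x d13, ← eT]
    rw [q1, q2]
    ring
  have t14 := T1_nonneg h0 P1 P4
  have t23 := T1_nonneg h0 P2 P3
  refine ⟨?_, ?_, ?_, ?_, ?_⟩ <;> linarith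

end H96H
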