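import Pool.Agent.Lib.H96H.D
import Pool.Agent.Lib.H63F.G3

/-! # H96H, chunk B2: hypothesis (b) -/

set_option autoImplicit false

namespace H96H

open Finset H98P H98Z H98M H63F

variable {V : Type*} [Fintype V] [DecidableEq V]

private theorem b2_nonX (v : V) (S : Finset V) : NonX {v} S := by
  by_cases h : v ∈ S
  · exact Or.inr (Or.inl (by simpa using h))
  · left
    ext x
    simp only [mem_inter, mem_singleton, notMem_empty, iff_false, not_and]
    rintro rfl
    exact h

private theorem b2_nonX' (v : V) (S : Finset V) : NonX S {v} := by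
  by_cases h : v ∈ S
  · exact Or.inr (Or.inr (Or.inl (by simpa using h)))
  · left
    ext x
    simp only [mem_inter, mem_singleton, notMem_empty, iff_false, not_and]
    rintro hx rfl
    exact h hx

private theorem b2_px_nonneg (e : Sym2 V) (S : Finset V) : 0 ≤ px e S := by
  unfold px
  split_ifs
  · exact zero_le_one
  · exact le_rfl

private theorem b2_px_le (e : Sym2 V) (S : Finset V) : px e S ≤ 1 := by
  unfold px
  split_ifs
  · exact le_rfl
  · exact zero_le_one

private theorem b2_px_loop (e : Sym2 V) (h : e.IsDiag) (S : Finset V) : px e S = 0 := by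
  unfold px
  rw [if_neg]
  rintro ⟨a, ha, b, hb, rfl⟩
  rw [Sym2.mk_isDiag_iff] at h
  exact hb (h ▸ ha)

private theorem b2_px_single {a b : V} (h : a ≠ b) (v : V) :
    px s(a, b) {v} = (if v = a then 1 else 0) + (if v = b then 1 else 0) := by
  unfold px
  by_cases h1 : v = a
  · subst h1
    rw [if_pos rfl, if_neg h, add_zero, if_pos]
    exact ⟨v, mem_singleton_self v, b, by simpa using Ne.symm h, rfl⟩
  · rw [if_neg h1, zero_add]
    by_cases h2 : v = b
    · subst h2
      rw [if_pos rfl, if_pos]
      exact ⟨v, mem_singleton_self v, a, by simpa using h, Sym2.eq_swap⟩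
    · rw [if_neg h2, if_neg]
      rintro ⟨x, hx, y, hy, hxy⟩
      rw [mem_singleton] at hx
      subst hx
      rw [Sym2.eq_iff] at hxy
      rcases hxy with ⟨h3, _⟩ | ⟨_, h3⟩
      · exact h1 h3.symm
      · exact h2 h3.symm

/-- Hypothesis (b) of `minimaxK`. PROOF: put `u v = μ (v+) - μ (v-)`, `w S = μ S`, `M = 1 + ∑ |u v|`. For `e = s(a,b)`,
`a ≠ b`: `mm pp μ e = u a + u b + ∑ w S px e S - const` with `const = (2/n) (∑ u + ∑ w)`; loops have `mm pp μ = -10`.
Let `μ' ({v}) = (u v + M)/N` (`{v}` as a `Cut V`), `μ' S = w S / N` for nontrivial `S` (a nontrivial cut is not a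
singleton), `N` = total: `μ' ∈ Sx T'`, `T'` = all `{v}` and the cuts of `T`; `T'` is laminar (`{v}` crosses nothing) and
`N * mm pc μ' e = mm pp μ e + const + 2 M` for `e` not a loop. So for `G` without loops
`Amax pp μ G ↔ Amax pc μ' G` (loops: `mm pc μ' = 0` is less than every other value, `-10` is less than every other
value of `mm pp μ`, which is at least `-3`), and `H63F.hyp_b` gives the claim (a set with `Amax pc μ'` has no loops). -/
theorem hyp_b (hV : 4 ≤ Fintype.card V) {cross : Sym2 V → Sym2 V → Prop}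
    (hsymm : ∀ e f, cross e f → cross f e) (hHD : ∀ W : Finset V, HD cross W) {T : Finset (St V)}
    (hT : LL T) {μ : St V → ℝ} (hμ : μ ∈ Sx T) :
    AC fun G : Finset (Sym2 V) => KK cross G ∧ Amax pp μ G := by
  classical
  obtain ⟨hμ0, hμT, hμ1⟩ := hμ
  have hle : ∀ s, μ s ≤ 1 := fun s => by
    rw [← hμ1]
    exact single_le_sum (fun s _ => hμ0 s) (mem_univ s)
  set u : V → ℝ := fun v => μ (Sum.inl (v, true)) - μ (Sum.inl (v, false)) with hu
  set w : NCut V → ℝ := fun S => μ (Sum.inr S) with hw
  set a : V → ℝ := fun v => u v + 2 with ha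
  have ha1 : ∀ v, 1 ≤ a v := fun v => by
    have h1 := hμ0 (Sum.inl (v, true))
    have h2 := hle (Sum.inl (v, false))
    simp only [ha, hu]
    linarith
  have hw0 : ∀ S, 0 ≤ w S := fun S => hμ0 _
  set N : ℝ := ∑ v, a v + ∑ R, w R with hN
  have hNpos : 0 < N := by
    obtain ⟨v0, -⟩ := Fintype.exists_pair_of_one_lt_card (α := V) (by omega)
    have h1 : a v0 ≤ ∑ v, a v := single_le_sum (fun v _ => zero_le_one.trans (ha1 v)) (mem_univ v0)
    have h2 : 0 ≤ ∑ R, w R := sum_nonneg fun R _ => hw0 R
    have h3 := ha1 v0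
    linarith
  -- the payoffs
  have hpp : ∀ e : Sym2 V, ¬ e.IsDiag → mm pp μ e =
      ∑ v, u v * px e {v} + ∑ R, w R * px e R.1 - 2 / (Fintype.card V : ℝ) * (∑ v, u v + ∑ R, w R) := by
    intro e he
    have h1 : ∀ v : V, ∑ b : Bool, μ (Sum.inl (v, b)) * pp e (Sum.inl (v, b)) =
        u v * px e {v} - 2 / (Fintype.card V : ℝ) * u v := by
      intro v
      rw [Fintype.sum_bool]
      simp only [pp, if_neg he, hu]
      norm_num
      ring
    have h2 : ∀ R : NCut V, μ (Sum.inr R) * pp e (Sum.inr R) =
        w R * px e R.1 - 2 / (Fintype.card V : ℝ) * w R := by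
      intro R
      simp only [pp, if_neg he, hw]
      ring
    unfold mm
    rw [Fintype.sum_sum_type, Fintype.sum_prod_type, sum_congr rfl fun v _ => h1 v,
      sum_congr rfl fun R _ => h2 R, sum_sub_distrib, sum_sub_distrib, ← mul_sum, ← mul_sum]
    ring
  have hpl : ∀ e : Sym2 V, e.IsDiag → mm pp μ e = -10 := by
    intro e he
    have h1 : ∀ s : St V, pp e s = -10 := by
      rintro (⟨v, b⟩ | R)
      · simp only [pp, if_pos he]
      · simp only [pp, if_pos he]
    unfold mm
    rw [sum_congr rfl fun s _ => by rw [h1 s], ← sum_mul, hμ1, one_mul]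
  have hpge : ∀ e : Sym2 V, ¬ e.IsDiag → -1 ≤ mm pp μ e := by
    intro e he
    have hn : (4 : ℝ) ≤ (Fintype.card V : ℝ) := by exact_mod_cast hV
    have hn2 : 2 / (Fintype.card V : ℝ) ≤ 1 := by
      rw [div_le_one (by linarith)]
      linarith
    have hn0 : 0 ≤ 2 / (Fintype.card V : ℝ) := by positivity
    have h1 : ∀ s : St V, -1 ≤ pp e s := by
      rintro (⟨v, b⟩ | R)
      · have h2 := b2_px_nonneg e {v}
        have h3 := b2_px_le e {v}
        cases b
        · simp only [pp, if_neg he]
          norm_num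
          linarith
        · simp only [pp, if_neg he]
          norm_num
          linarith
      · have h2 := b2_px_nonneg e R.1
        simp only [pp, if_neg he]
        linarith
    unfold mm
    calc (-1 : ℝ) = ∑ s, μ s * (-1) := by rw [← sum_mul, hμ1, one_mul]
      _ ≤ ∑ s, μ s * pp e s := sum_le_sum fun s _ => mul_le_mul_of_nonneg_left (h1 s) (hμ0 s)
  -- the new strategy
  have hsing : ∀ v : V, ({v} : Finset V).Nonempty ∧ ({v} : Finset V) ≠ univ := fun v => by
    refine ⟨singleton_nonempty v, fun h => ?_⟩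
    have := congrArg card h
    rw [card_singleton, card_univ] at this
    omega
  have hncut : ∀ R : NCut V, R.1.Nonempty ∧ R.1 ≠ univ := fun R => by
    refine ⟨card_pos.1 (by have := R.2.1; omega), fun h => ?_⟩
    have h2 := R.2.2
    rw [h, Finset.sdiff_self, card_empty] at h2
    omega
  set μ' : Cut V → ℝ := fun S =>
    ((∑ v, if S = ⟨{v}, hsing v⟩ then a v else 0) + ∑ R : NCut V, if S = ⟨R.1, hncut R⟩ then w R else 0) / N
    with hμ'
  set T' : Finset (Cut V) := univ.filter fun S =>
    (∃ v, S.1 = {v}) ∨ ∃ R : NCut V, (Sum.inr R : St V) ∈ T ∧ S.1 = R.1 with hT'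
  have hLam : Lam T' := by
    intro S hS S' hS'
    rw [hT', mem_filter] at hS hS'
    rcases hS.2 with ⟨v, hv⟩ | ⟨R, hR, hSR⟩
    · rw [hv]
      exact b2_nonX v _
    · rcases hS'.2 with ⟨v, hv⟩ | ⟨R', hR', hSR'⟩
      · rw [hv]
        exact b2_nonX' v _
      · rw [hSR, hSR']
        exact hT.1 R R' hR hR'
  have hsum : ∀ F : Cut V → ℝ, ∑ S, μ' S * F S =
      (∑ v, a v * F ⟨{v}, hsing v⟩ + ∑ R, w R * F ⟨R.1, hncut R⟩) / N := by
    intro F
    have h1 : ∀ S : Cut V, μ' S * F S =
        ((∑ v, (if S = ⟨{v}, hsing v⟩ then a v * F S else 0)) +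
          ∑ R : NCut V, (if S = ⟨R.1, hncut R⟩ then w R * F S else 0)) / N := by
      intro S
      simp only [hμ']
      rw [div_mul_eq_mul_div, add_mul, sum_mul, sum_mul]
      simp only [ite_mul, zero_mul]
    rw [sum_congr rfl fun S _ => h1 S, ← sum_div, sum_add_distrib, sum_comm,
      sum_comm (s := (univ : Finset (Cut V))) (t := (univ : Finset (NCut V)))]
    simp only [sum_ite_eq', mem_univ, if_true]
  have hμ'S : μ' ∈ Sx T' := by
    refine ⟨fun S => ?_, fun S hS => ?_, ?_⟩
    · simp only [hμ']
      refine div_nonneg (add_nonneg (sum_nonneg fun v _ => ?_) (sum_nonneg fun R _ => ?_)) hNpos.le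
      · split_ifs
        · exact zero_le_one.trans (ha1 v)
        · exact le_rfl
      · split_ifs
        · exact hw0 R
        · exact le_rfl
    · rw [hT', mem_filter, not_and_or, not_or] at hS
      have hS' := hS.resolve_left (fun h => h (mem_univ S))
      simp only [hμ']
      rw [sum_eq_zero fun v _ => ?_, sum_eq_zero fun R _ => ?_, add_zero, zero_div]
      · split_ifs with h
        · by_contra hne
          refine hS'.2 ⟨R, ?_, by rw [h]⟩
          by_contra hRT
          exact hne (hμT _ hRT)
        · rfl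
      · rw [if_neg]
        intro h
        exact hS'.1 ⟨v, by rw [h]⟩
    · have h1 := hsum fun _ => 1
      simp only [mul_one] at h1
      rw [h1, ← hN, div_self hNpos.ne']
  have hpc : ∀ e : Sym2 V, mm pc μ' e = (∑ v, a v * px e {v} + ∑ R, w R * px e R.1) / N := by
    intro e
    have h1 := hsum fun S => px e S.1
    unfold mm pc
    exact h1
  set κ : ℝ := 2 / (Fintype.card V : ℝ) * (∑ v, u v + ∑ R, w R) + 4 with hκ
  have hrel : ∀ e : Sym2 V, ¬ e.IsDiag → N * mm pc μ' e = mm pp μ e + κ := by
    intro e he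
    rw [hpc e, mul_div_cancel₀ _ hNpos.ne', hpp e he, hκ]
    have h1 : ∑ v, a v * px e {v} = ∑ v, u v * px e {v} + 4 := by
      have h2 : ∑ v, px e {v} = 2 := by
        induction e with
        | _ x y =>
          rw [Sym2.mk_isDiag_iff] at he
          rw [sum_congr rfl fun v _ => b2_px_single he v, sum_add_distrib]
          simp only [sum_ite_eq', mem_univ, if_true]
          norm_num
      simp only [ha, add_mul]
      rw [sum_add_distrib, ← mul_sum, h2]
      norm_num
    rw [h1]
    ring
  have hcl : ∀ e : Sym2 V, e.IsDiag → mm pc μ' e = 0 := by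
    intro e he
    rw [hpc e, sum_eq_zero fun v _ => by rw [b2_px_loop e he, mul_zero],
      sum_eq_zero fun R _ => by rw [b2_px_loop e he, mul_zero], add_zero, zero_div]
  have hcpos : ∀ e : Sym2 V, ¬ e.IsDiag → 0 < mm pc μ' e := by
    intro e he
    rw [hpc e]
    refine div_pos ?_ hNpos
    have h2 : 0 ≤ ∑ R, w R * px e R.1 := sum_nonneg fun R _ => mul_nonneg (hw0 R) (b2_px_nonneg e _)
    have h1 : 0 < ∑ v, a v * px e {v} := by
      induction e with
      | _ x y =>
        rw [Sym2.mk_isDiag_iff] at he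
        have h3 : a x * px s(x, y) {x} ≤ ∑ v, a v * px s(x, y) {v} :=
          single_le_sum (f := fun v => a v * px s(x, y) {v})
            (fun v _ => mul_nonneg (zero_le_one.trans (ha1 v)) (b2_px_nonneg _ _)) (mem_univ x)
        rw [b2_px_single he, if_pos rfl, if_neg he, add_zero, mul_one] at h3
        have h4 := ha1 x
        linarith
    linarith
  obtain ⟨p, q, hpq⟩ := Fintype.exists_pair_of_one_lt_card (α := V) (by omega)
  have hf0 : ¬ (s(p, q) : Sym2 V).IsDiag := by
    rw [Sym2.mk_isDiag_iff]
    exact hpq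
  have hiff : ∀ G : Finset (Sym2 V), (KK cross G ∧ Amax pp μ G) ↔ (Plane cross G ∧ Amax pc μ' G) := by
    intro G
    constructor
    · rintro ⟨⟨h1, h2⟩, h3⟩
      refine ⟨h1, fun e he f => ?_⟩
      have hel : ¬ e.IsDiag := by
        intro h
        have := h3 e he s(p, q)
        rw [hpl e h] at this
        have h5 := hpge _ hf0
        linarith
      by_cases hf : f.IsDiag
      · rw [hcl f hf]
        exact (hcpos e hel).le
      · have h4 := h3 e he f
        have h5 := hrel e hel
        have h6 := hrel f hf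
        refine le_of_mul_le_mul_left ?_ hNpos
        linarith
    · rintro ⟨h1, h3⟩
      have hel : ∀ e ∈ G, ¬ e.IsDiag := by
        intro e he h
        have := h3 e he s(p, q)
        rw [hcl e h] at this
        have h5 := hcpos _ hf0
        linarith
      refine ⟨⟨h1, fun v hv => hel _ hv (by rw [Sym2.mk_isDiag_iff])⟩, fun e he f => ?_⟩
      by_cases hf : f.IsDiag
      · rw [hpl f hf]
        have h5 := hpge e (hel e he)
        linarith
      · have h4 := h3 e he f
        have h5 := hrel e (hel e he)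
        have h6 := hrel f hf
        have h7 : N * mm pc μ' f ≤ N * mm pc μ' e := mul_le_mul_of_nonneg_left h4 hNpos.le
        linarith
  have hmain := H63F.hyp_b (by omega) hsymm hHD hLam hμ'S
  intro z hz hb
  obtain ⟨c, hc, hcb⟩ := hmain z (fun s hs => (hiff s).1 (hz s hs)) hb
  exact ⟨c, fun s hs => (hiff s).2 (hc s hs), hcb⟩

end H96H
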