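import Pool.Agent.Lib.H96H.D
import Pool.Agent.Lib.H13G.A

/-! # H96H, chunk J1: a fractional Hamiltonian cycle without nontrivial minimum cuts lives on a 3-connected graph -/

set_option autoImplicit false

namespace H96H

open Finset H98P H98Z H98M H63F

variable {V : Type*} [Fintype V] [DecidableEq V]

/-- One edge against the two parts of a disconnected `G - {a, b}`. -/
private theorem j1_edge {G : Finset (Sym2 V)} {y : Sym2 V → ℝ} (hy : FracHam G y) (a b : V) (c : V → Prop)
    (hc : ∀ u v, u ≠ a → u ≠ b → v ≠ a → v ≠ b → s(u, v) ∈ G → (c u ↔ c v)) (A B : Finset V)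
    (hA : ∀ u, u ∈ A ↔ u ≠ a ∧ u ≠ b ∧ c u) (hB : ∀ u, u ∈ B ↔ u ≠ a ∧ u ≠ b ∧ ¬ c u) (e : Sym2 V) :
    y e * px e A + y e * px e B ≤ y e * px e {a} + y e * px e {b} := by
  induction e using Sym2.ind with
  | _ u v =>
    by_cases hG : s(u, v) ∈ G
    · rw [← mul_add, ← mul_add]
      refine mul_le_mul_of_nonneg_left ?_ (hy.nonneg _)
      have n1 := H13G.px_nonneg s(u, v) ({a} : Finset V)
      have n2 := H13G.px_nonneg s(u, v) ({b} : Finset V)
      by_cases hu : u = a ∨ u = b
      · have uA : u ∉ A := fun h => hu.elim ((hA u).1 h).1 ((hA u).1 h).2.1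
        have uB : u ∉ B := fun h => hu.elim ((hB u).1 h).1 ((hB u).1 h).2.1
        by_cases hv : v = a ∨ v = b
        · have vA : v ∉ A := fun h => hv.elim ((hA v).1 h).1 ((hA v).1 h).2.1
          have vB : v ∉ B := fun h => hv.elim ((hB v).1 h).1 ((hB v).1 h).2.1
          have e1 : px s(u, v) A = 0 := by rw [H13G.px_mk, if_pos (by simp [uA, vA])]
          have e2 : px s(u, v) B = 0 := by rw [H13G.px_mk, if_pos (by simp [uB, vB])]
          linarith
        · rw [not_or] at hv
          have e3 : px s(u, v) A + px s(u, v) B = 1 := by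
            rw [H13G.px_mk, H13G.px_mk]
            by_cases hcv : c v <;> simp [uA, uB, hA v, hB v, hv.1, hv.2, hcv]
          rcases hu with rfl | rfl
          · have e4 : px s(u, v) ({u} : Finset V) = 1 := by
              rw [H13G.px_mk, if_neg (by simp [hv.1])]
            linarith
          · have e4 : px s(u, v) ({u} : Finset V) = 1 := by
              rw [H13G.px_mk, if_neg (by simp [hv.2])]
            linarith
      · rw [not_or] at hu
        by_cases hv : v = a ∨ v = b
        · have vA : v ∉ A := fun h => hv.elim ((hA v).1 h).1 ((hA v).1 h).2.1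
          have vB : v ∉ B := fun h => hv.elim ((hB v).1 h).1 ((hB v).1 h).2.1
          have e3 : px s(u, v) A + px s(u, v) B = 1 := by
            rw [H13G.px_mk, H13G.px_mk]
            by_cases hcu : c u <;> simp [vA, vB, hA u, hB u, hu.1, hu.2, hcu]
          rcases hv with rfl | rfl
          · have e4 : px s(u, v) ({v} : Finset V) = 1 := by
              rw [H13G.px_mk, if_neg (by simp [hu.1])]
            linarith
          · have e4 : px s(u, v) ({v} : Finset V) = 1 := by
              rw [H13G.px_mk, if_neg (by simp [hu.2])]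
            linarith
        · rw [not_or] at hv
          have h1 := hc u v hu.1 hu.2 hv.1 hv.2 hG
          have e1 : px s(u, v) A = 0 := by
            rw [H13G.px_mk, if_pos (by rw [hA, hA]; simp [hu.1, hu.2, hv.1, hv.2, h1])]
          have e2 : px s(u, v) B = 0 := by
            rw [H13G.px_mk, if_pos (by rw [hB, hB]; simp [hu.1, hu.2, hv.1, hv.2, h1])]
          linarith
    · rw [hy.supp _ hG]
      simp

/-- PROOF: let `c` be constant along the edges of `G - {a, b}`. If it takes two values there, let `A`, `B` be the two parts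
(all vertices with one value / the others). All edges leaving `A` or `B` end in `{a, b}`, so
`cutw y A + cutw y B ≤ cutw y {a} + cutw y {b} = 4`. A part with at least two vertices is a nontrivial cut with value
`> 2`, the other one has value `≥ 2`: contradiction. So both are single vertices and `n = 4`. -/
theorem three_connected (hV : 5 ≤ Fintype.card V) {G : Finset (Sym2 V)} {y : Sym2 V → ℝ} (hy : FracHam G y)
    (hs : ∀ S : Finset V, 2 ≤ S.card → 2 ≤ (univ \ S).card → 2 < cutw y S) (a b : V) (c : V → Prop)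
    (hc : ∀ u v, u ≠ a → u ≠ b → v ≠ a → v ≠ b → s(u, v) ∈ G → (c u ↔ c v)) :
    (∀ u, u ≠ a → u ≠ b → c u) ∨ ∀ u, u ≠ a → u ≠ b → ¬ c u := by
  classical
  by_contra hcon
  push Not at hcon
  obtain ⟨⟨u, ua, ub, hu⟩, v, va, vb, hv⟩ := hcon
  obtain ⟨A, hA⟩ : ∃ A : Finset V, ∀ u, u ∈ A ↔ u ≠ a ∧ u ≠ b ∧ c u :=
    ⟨univ.filter fun u => u ≠ a ∧ u ≠ b ∧ c u, fun u => by rw [mem_filter]; exact and_iff_right (mem_univ u)⟩
  obtain ⟨B, hB⟩ : ∃ B : Finset V, ∀ u, u ∈ B ↔ u ≠ a ∧ u ≠ b ∧ ¬ c u :=
    ⟨univ.filter fun u => u ≠ a ∧ u ≠ b ∧ ¬ c u, fun u => by rw [mem_filter]; exact and_iff_right (mem_univ u)⟩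
  have hvA : v ∈ A := (hA v).2 ⟨va, vb, hv⟩
  have huB : u ∈ B := (hB u).2 ⟨ua, ub, hu⟩
  have haA : a ∉ A := fun h => ((hA a).1 h).1 rfl
  have haB : a ∉ B := fun h => ((hB a).1 h).1 rfl
  have hAB : ∀ w ∈ A, w ∉ B := fun w h h' => ((hB w).1 h').2.2 ((hA w).1 h).2.2
  have hsum : cutw y A + cutw y B ≤ 4 := by
    have h1 : cutw y A + cutw y B ≤ cutw y {a} + cutw y {b} := by
      unfold cutw
      rw [← Finset.sum_add_distrib, ← Finset.sum_add_distrib]
      exact Finset.sum_le_sum fun e _ => j1_edge hy a b c hc A B hA hB e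
    rw [hy.vert, hy.vert] at h1
    linarith
  have h1 : 2 ≤ cutw y A := hy.cut A ⟨v, hvA⟩ fun h => haA (h ▸ mem_univ a)
  have h2 : 2 ≤ cutw y B := hy.cut B ⟨u, huB⟩ fun h => haB (h ▸ mem_univ a)
  -- the cardinalities
  have hcard : Fintype.card V ≤ A.card + B.card + 2 := by
    have h3 : (univ : Finset V) ⊆ A ∪ B ∪ {a, b} := by
      intro w _
      simp only [mem_union, mem_insert, mem_singleton, hA, hB]
      tauto
    have h4 := card_le_card h3
    have h5 := card_union_le (A ∪ B) ({a, b} : Finset V)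
    have h6 := card_union_le A B
    have h7 : ({a, b} : Finset V).card ≤ 2 := card_le_two
    rw [card_univ] at h4
    omega
  have hcoA : 2 ≤ (univ \ A).card := by
    have h3 : ({a, u} : Finset V) ⊆ univ \ A := by
      intro w hw
      rw [mem_insert, mem_singleton] at hw
      rw [mem_sdiff]
      rcases hw with rfl | rfl
      · exact ⟨mem_univ _, haA⟩
      · exact ⟨mem_univ _, fun h => hAB _ h huB⟩
    have h4 := card_le_card h3
    rwa [card_pair (Ne.symm ua)] at h4
  have hcoB : 2 ≤ (univ \ B).card := by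
    have h3 : ({a, v} : Finset V) ⊆ univ \ B := by
      intro w hw
      rw [mem_insert, mem_singleton] at hw
      rw [mem_sdiff]
      rcases hw with rfl | rfl
      · exact ⟨mem_univ _, haB⟩
      · exact ⟨mem_univ _, fun h => hAB _ hvA h⟩
    have h4 := card_le_card h3
    rwa [card_pair (Ne.symm va)] at h4
  rcases Nat.lt_or_ge 1 A.card with h | h
  · have := hs A h hcoA
    linarith
  · have := hs B (by omega) hcoB
    linarith

end H96H
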