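import Pool.Agent.Lib.H96H.M
import Pool.Agent.Lib.H96H.B1
import Pool.Agent.Lib.H96H.B2
import Pool.Agent.Lib.H96H.A3
import Pool.Agent.Lib.H96H.C2

/-! # H96H, chunk H: Theorem H -/

set_option autoImplicit false

namespace H96H

open Finset H98P H98Z H98M H63F

variable {V : Type*} [Fintype V] [DecidableEq V]

private theorem hh_dnK (cross : Sym2 V → Sym2 V → Prop) : Dn (KK cross) := by
  intro s t hst ht
  refine ⟨?_, fun v hv => ht.2 v (hst hv)⟩
  intro e he f hf
  exact ht.1 e (hst he) f (hst hf)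

private theorem hh_dnL : Dn (fun T : Finset (St V) => LL T) := by
  intro s t hst ht
  refine ⟨fun S S' h h' => ht.1 S S' (hst h) (hst h'), fun v hv => ht.2.1 v ⟨hst hv.1, hst hv.2⟩, fun b => ?_⟩
  obtain ⟨v, hv⟩ := ht.2.2 b
  exact ⟨v, fun h => hv (hst h)⟩

private theorem hh_smul (x : Sym2 V → ℝ) (c : ℝ) (S : Finset V) : cutw (fun e => c * x e) S = c * cutw x S := by
  unfold cutw
  rw [Finset.mul_sum]
  refine Finset.sum_congr rfl fun e _ => ?_
  ring

/-- Some plane `x` is good. PROOF: otherwise `minimaxK` (p = pp, q = 0, K = KK cross, L = LL) with `ac_KK`, `hyp_a`,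
`hyp_b` contradicts `no_equilibrium`. -/
theorem exists_good (hV : 4 ≤ Fintype.card V) {cross : Sym2 V → Sym2 V → Prop}
    (hsymm : ∀ e f, cross e f → cross f e) (hHD : ∀ W : Finset V, HD cross W) :
    ∃ G : Finset (Sym2 V), KK cross G ∧ ∃ x ∈ Sx G, Good x := by
  by_contra hng
  have hne : Nonempty V := by
    rw [← Fintype.card_pos_iff]
    omega
  have hs2 : Nonempty (Sym2 V) := ⟨s(hne.some, hne.some)⟩
  have hK0 : KK cross (∅ : Finset (Sym2 V)) := by
    refine ⟨?_, fun v hv => absurd hv (Finset.notMem_empty _)⟩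
    intro e he
    exact absurd he (Finset.notMem_empty _)
  have hL0 : LL (∅ : Finset (St V)) := by
    refine ⟨fun S S' h => absurd h (Finset.notMem_empty _), fun v hv => absurd hv.1 (Finset.notMem_empty _), fun b => ?_⟩
    exact ⟨hne.some, Finset.notMem_empty _⟩
  obtain ⟨G, _, hGK, x, hx, T, hT, hmin, μ, hμ, hmax⟩ := minimaxK (pp : Sym2 V → St V → ℝ) (fun _ => 0) (KK cross)
    (fun T : Finset (St V) => LL T) (hh_dnK cross) hh_dnL hK0 hL0 (ac_KK hV hsymm hHD)
    (fun G hG x hx => hyp_a hV hx.1 hx.2.2 (fun v => hx.2.1 _ (hG.2 v)) (fun hgood => hng ⟨G, hG, x, hx, hgood⟩))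
    (fun T hT μ hμ => hyp_b hV hsymm hHD hT hμ)
  exact no_equilibrium hV hGK.2 hx hT hmin hμ hmax

/-- THEOREM H. PROOF: `exists_good`, `y = n x`. -/
theorem theoremH (hV : 4 ≤ Fintype.card V) {cross : Sym2 V → Sym2 V → Prop}
    (hsymm : ∀ e f, cross e f → cross f e) (hHD : ∀ W : Finset V, HD cross W) :
    ∃ (G : Finset (Sym2 V)) (y : Sym2 V → ℝ), Plane cross G ∧ FracHam G y ∧ (∀ e ∈ G, 0 < y e) ∧
      ((∀ e, y e = 0 ∨ y e = 1) ∨
        ∀ S : Finset V, 2 ≤ S.card → 2 ≤ (univ \ S).card → 2 < cutw y S) := by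
  classical
  obtain ⟨G, hG, x, hx, hgood⟩ := exists_good hV hsymm hHD
  have hn : (0 : ℝ) < (Fintype.card V : ℝ) := by
    have h4 : (4 : ℝ) ≤ (Fintype.card V : ℝ) := by exact_mod_cast hV
    linarith
  have hn2 : (Fintype.card V : ℝ) * (2 / (Fintype.card V : ℝ)) = 2 := by
    field_simp
  have hn1 : (Fintype.card V : ℝ) * (1 / (Fintype.card V : ℝ)) = 1 := by
    field_simp
  have hsub : G.filter (fun e => 0 < x e) ⊆ G := Finset.filter_subset _ _
  have hKK : KK cross (G.filter fun e => 0 < x e) := hh_dnK cross _ _ hsub hG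
  refine ⟨G.filter fun e => 0 < x e, fun e => (Fintype.card V : ℝ) * x e, hKK.1, ?_, ?_, ?_⟩
  · refine ⟨fun e => mul_nonneg hn.le (hx.1 e), ?_, hKK.2, ?_, ?_⟩
    · intro e he
      have h0 : x e = 0 := by
        by_contra hne
        apply he
        rw [Finset.mem_filter]
        refine ⟨?_, lt_of_le_of_ne (hx.1 e) (Ne.symm hne)⟩
        by_contra heG
        exact hne (hx.2.1 e heG)
      show (Fintype.card V : ℝ) * x e = 0
      rw [h0, mul_zero]
    · intro v
      rw [hh_smul, hgood.1 v, hn2]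
    · intro S hS hS'
      rw [hh_smul]
      calc (2 : ℝ) = (Fintype.card V : ℝ) * (2 / (Fintype.card V : ℝ)) := hn2.symm
        _ ≤ _ := mul_le_mul_of_nonneg_left (hgood.2.1 S hS hS') hn.le
  · intro e he
    exact mul_pos hn (Finset.mem_filter.mp he).2
  · rcases hgood.2.2 with h | h
    · left
      intro e
      rcases h e with h0 | h0
      · left
        show (Fintype.card V : ℝ) * x e = 0
        rw [h0, mul_zero]
      · right
        show (Fintype.card V : ℝ) * x e = 1
        rw [h0, hn1]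
    · right
      intro S hS hS'
      rw [hh_smul]
      calc (2 : ℝ) = (Fintype.card V : ℝ) * (2 / (Fintype.card V : ℝ)) := hn2.symm
        _ < _ := mul_lt_mul_of_pos_left (h ⟨S, hS, hS'⟩) hn

end H96H
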