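import Pool.Agent.Lib.H96H.D
import Pool.Agent.Lib.H56Z.X0

/-! # H96H, chunk J2: an integral fractional Hamiltonian cycle is a Hamiltonian cycle -/

set_option autoImplicit false

namespace H96H

open Finset H98P H98Z H98M H63F

variable {V : Type*} [Fintype V] [DecidableEq V]

/-- The graph of the edges of weight `1`. -/
private def oneGraph (y : Sym2 V → ℝ) : SimpleGraph V where
  Adj u v := u ≠ v ∧ y s(u, v) = 1
  symm := ⟨fun u v h => ⟨h.1.symm, by rw [Sym2.eq_swap]; exact h.2⟩⟩
  loopless := ⟨fun _ h => h.1 rfl⟩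

private theorem oneGraph_ncard {y : Sym2 V → ℝ} (hi : ∀ e, y e = 0 ∨ y e = 1) {v : V}
    (hv : cutw y {v} = 2) : ((oneGraph y).neighborSet v).ncard = 2 := by
  classical
  rw [H56Z.cutw_pairs, sum_singleton] at hv
  have h1 : (oneGraph y).neighborSet v =
      (((univ \ {v}).filter fun b => y s(v, b) = 1 : Finset V) : Set V) := by
    ext b
    simp only [SimpleGraph.mem_neighborSet, oneGraph, coe_filter, mem_sdiff, mem_univ, true_and,
      mem_singleton, Set.mem_ofPred_eq]
    exact ⟨fun h => ⟨fun h' => h.1 h'.symm, h.2⟩, fun h => ⟨fun h' => h.1 h'.symm, h.2⟩⟩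
  rw [h1, Set.ncard_coe_finset]
  have h2 : ∑ b ∈ univ \ {v}, y s(v, b) = ∑ b ∈ univ \ {v}, if y s(v, b) = 1 then (1 : ℝ) else 0 := by
    refine sum_congr rfl fun b _ => ?_
    rcases hi s(v, b) with h | h
    · rw [h, if_neg (by norm_num)]
    · rw [h, if_pos rfl]
  rw [h2, sum_boole] at hv
  exact_mod_cast hv

private theorem oneGraph_exit {y : Sym2 V → ℝ} (hi : ∀ e, y e = 0 ∨ y e = 1) {S : Finset V}
    (hS : 2 ≤ cutw y S) : ∃ a ∈ S, ∃ b, b ∉ S ∧ (oneGraph y).Adj a b := by
  classical
  rw [H56Z.cutw_pairs] at hS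
  by_contra hcon
  push Not at hcon
  have h1 : ∑ a ∈ S, ∑ b ∈ univ \ S, y s(a, b) = 0 := by
    refine sum_eq_zero fun a ha => sum_eq_zero fun b hb => ?_
    rcases hi s(a, b) with h | h
    · exact h
    · rw [mem_sdiff] at hb
      refine absurd ⟨?_, h⟩ (hcon a ha b hb.2)
      rintro rfl
      exact hb.2 ha
  rw [h1] at hS
  norm_num at hS

/-- PROOF: every vertex has exactly two edges with `y = 1` (`cutw y {v} = 2`); the graph of these edges is 2-regular
and, by the cut condition, connected; `SimpleGraph.IsCycles` gives a cycle through all vertices. -/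
theorem ham_cycle (hV : 3 ≤ Fintype.card V) {G : Finset (Sym2 V)} {y : Sym2 V → ℝ} (hy : FracHam G y)
    (hi : ∀ e, y e = 0 ∨ y e = 1) :
    ∃ f : Fin (Fintype.card V) → V, Function.Injective f ∧
      (∀ i : Fin (Fintype.card V), ∀ h : i.1 + 1 < Fintype.card V, s(f i, f ⟨i.1 + 1, h⟩) ∈ G) ∧
      s(f ⟨Fintype.card V - 1, by omega⟩, f ⟨0, by omega⟩) ∈ G := by
  classical
  set H := oneGraph y with hH
  have hG : ∀ {a b : V}, H.Adj a b → s(a, b) ∈ G := by
    intro a b hab
    by_contra hn
    have h1 := hy.supp _ hn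
    have h2 : y s(a, b) = 1 := hab.2
    rw [h1] at h2
    norm_num at h2
  have h2 : ∀ v, (H.neighborSet v).ncard = 2 := fun v => oneGraph_ncard hi (hy.vert v)
  have hcyc : H.IsCycles := fun v _ => h2 v
  have hne : ∀ v, (H.neighborSet v).Nonempty := fun v =>
    Set.nonempty_of_ncard_ne_zero (by rw [h2 v]; norm_num)
  have : Nonempty V := Fintype.card_pos_iff.1 (by omega)
  obtain ⟨v0⟩ := this
  obtain ⟨p, hp, hps⟩ := hcyc.exists_cycle_toSubgraph_verts_eq_connectedComponentSupp
    (c := H.connectedComponentMk v0) (v := v0) rfl (hne v0)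
  have hall : ∀ v, v ∈ p.support := by
    by_contra hcon
    push Not at hcon
    obtain ⟨w, hw⟩ := hcon
    set S : Finset V := p.support.toFinset with hS
    have hSne : S.Nonempty := ⟨v0, by rw [hS, List.mem_toFinset]; exact p.start_mem_support⟩
    have hSu : S ≠ univ := by
      intro h
      apply hw
      rw [← List.mem_toFinset, ← hS, h]
      exact mem_univ _
    obtain ⟨a, ha, b, hb, hab⟩ := oneGraph_exit hi (hy.cut S hSne hSu)
    apply hb
    rw [hS, List.mem_toFinset] at ha ⊢
    rw [← SimpleGraph.Walk.mem_verts_toSubgraph, hps] at ha ⊢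
    rw [SimpleGraph.ConnectedComponent.mem_supp_iff] at ha ⊢
    rw [← ha]
    exact SimpleGraph.ConnectedComponent.connectedComponentMk_eq_of_adj hab.symm
  have hlen : p.length = Fintype.card V := by
    have h3 : p.support.tail.Nodup := hp.support_nodup
    have h4 : p.support.tail.toFinset = univ := by
      ext v
      simp only [List.mem_toFinset, mem_univ, iff_true]
      have h5 := hall v
      rw [← SimpleGraph.Walk.cons_tail_support, List.mem_cons] at h5
      rcases h5 with h5 | h5
      · rw [h5]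
        exact p.end_mem_tail_support hp.not_nil
      · exact h5
    have h6 := List.toFinset_card_of_nodup h3
    rw [h4, card_univ, List.length_tail, SimpleGraph.Walk.length_support, Nat.add_sub_cancel] at h6
    exact h6.symm
  refine ⟨fun i => p.getVert i.1, ?_, ?_, ?_⟩
  · intro i j hij
    have h7 := hp.getVert_injOn' (x₁ := i.1) (x₂ := j.1)
      (by rw [Set.mem_ofPred_eq, hlen]; omega) (by rw [Set.mem_ofPred_eq, hlen]; omega) hij
    exact Fin.ext h7
  · intro i h
    exact hG (p.adj_getVert_succ (by rw [hlen]; omega))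
  · have h8 := p.adj_getVert_succ (i := Fintype.card V - 1) (by rw [hlen]; omega)
    have h9 : p.getVert (Fintype.card V - 1 + 1) = p.getVert 0 := by
      rw [Nat.sub_add_cancel (by omega), ← hlen, p.getVert_length, p.getVert_zero]
    rw [h9] at h8
    exact hG h8

end H96H
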