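import Pool.Agent.Lib.H96H.A1
import Pool.Agent.Lib.H63F.G1

/-! # H96H, chunk A2: hypothesis (a), no signed vertex is a minimizer -/

set_option autoImplicit false

namespace H96H

open Finset H98P H98Z H98M H63F

variable {V : Type*} [Fintype V] [DecidableEq V]

private theorem a2_px_compl (e : Sym2 V) (S : Finset V) : px e (univ \ S) = px e S := by
  unfold px
  have h : (∃ a ∈ univ \ S, ∃ b, b ∉ univ \ S ∧ e = s(a, b)) ↔
      ∃ a ∈ S, ∃ b, b ∉ S ∧ e = s(a, b) := by
    constructor
    · rintro ⟨a, ha, b, hb, rfl⟩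
      refine ⟨b, ?_, a, ?_, Sym2.eq_swap⟩
      · by_contra h
        exact hb (by simp [h])
      · simpa using ha
    · rintro ⟨a, ha, b, hb, rfl⟩
      exact ⟨b, by simpa using hb, a, by simpa using ha, Sym2.eq_swap⟩
  by_cases h1 : ∃ a ∈ S, ∃ b, b ∉ S ∧ e = s(a, b)
  · rw [if_pos h1, if_pos (h.2 h1)]
  · rw [if_neg h1, if_neg fun h2 => h1 (h.1 h2)]

private theorem a2_cutw_compl (y : Sym2 V → ℝ) (S : Finset V) :
    cutw y (univ \ S) = cutw y S := by
  unfold cutw
  exact Finset.sum_congr rfl fun e _ => by rw [a2_px_compl]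

private theorem a2_submod {x : Sym2 V → ℝ} (h0 : ∀ e, 0 ≤ x e) (S T : Finset V) :
    cutw x (S ∩ T) + cutw x (S ∪ T) ≤ cutw x S + cutw x T := by
  unfold cutw
  rw [← sum_add_distrib, ← sum_add_distrib]
  refine sum_le_sum fun e _ => ?_
  rw [← mul_add, ← mul_add]
  exact mul_le_mul_of_nonneg_left (px_submod e S T) (h0 e)

/-- Case `m < 0`, no signed vertex is a minimizer: an inclusion minimal minimizer crosses no minimizer
(`H63F.px_submod` summed gives submodularity of `cutw x`; the corner `S0 ∩ S` is a minimizer, it is nontrivial as the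
trivial cuts have a larger value; `S0 ∪ S ≠ univ` has value at least `m + 2/n` too). Then `caseS`. -/
theorem caseN (hV : 4 ≤ Fintype.card V) {x : Sym2 V → ℝ} (h0 : ∀ e, 0 ≤ x e) (h1 : ∑ e, x e = 1)
    (hl : ∀ v, x s(v, v) = 0)
    (hv : ∀ (v : V) (b : Bool), ¬ Amin pp (fun _ => 0) x ({Sum.inl (v, b)} : Finset (St V))) :
    AC fun T : Finset (St V) => LL T ∧ Amin pp (fun _ => 0) x T := by
  classical
  have hVne : (univ : Finset (St V)).Nonempty := by
    obtain ⟨v⟩ := Fintype.card_pos_iff.1 (by omega : 0 < Fintype.card V)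
    exact ⟨Sum.inl (v, true), mem_univ _⟩
  have hex : ∃ S1 : NCut V, ∀ s : St V,
      pay pp (fun _ => 0) x (Sum.inr S1 : St V) ≤ pay pp (fun _ => 0) x s := by
    obtain ⟨s0, _, hs0⟩ := exists_min_image univ (fun s : St V => pay pp (fun _ => 0) x s) hVne
    rcases s0 with ⟨v, b⟩ | S1
    · refine absurd ?_ (hv v b)
      intro S hS S'
      rw [mem_singleton.1 hS]
      exact hs0 S' (mem_univ S')
    · exact ⟨S1, fun s => hs0 s (mem_univ s)⟩
  obtain ⟨S1, hS1⟩ := hex
  obtain ⟨S0, hS0A, hS0m⟩ := exists_min_image (univ.filter fun S : NCut V => ∀ s : St V,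
      pay pp (fun _ => 0) x (Sum.inr S : St V) ≤ pay pp (fun _ => 0) x s) (fun S => S.1.card)
    ⟨S1, mem_filter.2 ⟨mem_univ _, hS1⟩⟩
  have hS0 : ∀ s : St V, pay pp (fun _ => 0) x (Sum.inr S0 : St V) ≤ pay pp (fun _ => 0) x s :=
    (mem_filter.1 hS0A).2
  have hcut : ∀ S : NCut V, pay pp (fun _ => 0) x (Sum.inr S : St V) =
      cutw x S.1 - 2 / (Fintype.card V : ℝ) := pay_cut h1 hl
  set c : ℝ := 2 / (Fintype.card V : ℝ) with hc
  have hsing : ∀ v : V, cutw x S0.1 < cutw x {v} := by
    intro v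
    by_contra hcon
    push Not at hcon
    refine hv v true ?_
    intro S hS S'
    rw [mem_singleton.1 hS, pay_pos h1 hl v]
    refine le_trans ?_ (hS0 S')
    rw [hcut S0]
    linarith
  have hgen : ∀ R : Finset V, R.Nonempty → R ≠ univ → cutw x S0.1 ≤ cutw x R := by
    intro R hR1 hR2
    have hcR : 0 < R.card := card_pos.2 hR1
    have hne : (univ \ R).Nonempty := by
      rw [sdiff_nonempty]
      intro h
      exact hR2 (eq_univ_iff_forall.2 fun v => h (mem_univ v))
    have hcR' : 0 < (univ \ R).card := card_pos.2 hne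
    by_cases h2 : R.card = 1
    · obtain ⟨v, rfl⟩ := card_eq_one.1 h2
      exact (hsing v).le
    · by_cases h3 : (univ \ R).card = 1
      · obtain ⟨w, hw⟩ := card_eq_one.1 h3
        rw [← a2_cutw_compl x R, hw]
        exact (hsing w).le
      · have h4 := hS0 (Sum.inr ⟨R, by omega, by omega⟩)
        rw [hcut S0, hcut] at h4
        have h5 : cutw x S0.1 - c ≤ cutw x R - c := h4
        linarith
  refine caseS S0 ?_ ?_
  · intro S hS S'
    rw [mem_singleton.1 hS]
    exact hS0 S'
  · intro S hS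
    by_contra hX
    unfold NonX at hX
    push Not at hX
    obtain ⟨hX1, hX2, hX3, hX4⟩ := hX
    have hSm : cutw x S.1 ≤ cutw x S0.1 := by
      have h6 := hS (Sum.inr S) (mem_singleton_self _) (Sum.inr S0)
      rw [hcut S, hcut S0] at h6
      linarith
    have hsub := a2_submod h0 S0.1 S.1
    have hRne : (S0.1 ∩ S.1).Nonempty := hX1
    have hUne : (S0.1 ∪ S.1).Nonempty := hRne.mono (inter_subset_left.trans subset_union_left)
    have h7 := hgen (S0.1 ∪ S.1) hUne hX4
    have h8 : cutw x (S0.1 ∩ S.1) ≤ cutw x S0.1 := by linarith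
    have h9 : 2 ≤ (S0.1 ∩ S.1).card := by
      by_contra hcon
      have h10 : (S0.1 ∩ S.1).card = 1 := by
        have := card_pos.2 hRne
        omega
      obtain ⟨v, hv'⟩ := card_eq_one.1 h10
      rw [hv'] at h8
      exact absurd h8 (not_le.2 (hsing v))
    have h11 : 2 ≤ (univ \ (S0.1 ∩ S.1)).card :=
      le_trans S0.2.2 (card_le_card (sdiff_subset_sdiff (Subset.refl _) inter_subset_left))
    have h12 := hS0m ⟨S0.1 ∩ S.1, h9, h11⟩ (mem_filter.2 ⟨mem_univ _, fun s => by
      refine le_trans ?_ (hS0 s)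
      rw [hcut, hcut]
      show cutw x (S0.1 ∩ S.1) - c ≤ cutw x S0.1 - c
      linarith⟩)
    have h13 : (S0.1 ∩ S.1).card < S0.1.card := by
      refine card_lt_card ⟨inter_subset_left, fun h => hX2 fun a ha => ?_⟩
      exact (mem_inter.1 (h ha)).2
    have h14 : S0.1.card ≤ (S0.1 ∩ S.1).card := h12
    omega

end H96H
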