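import Pool.Agent.Lib.H63F.D
import Pool.Agent.Lib.H98M.M0

/-!
# H96H, file D: definitions for Theorem H (Rafla or plane 3-connected), see PROOF.md
-/

set_option autoImplicit false

namespace H96H

open Finset H98P H98Z H98M H63F

/-- The nontrivial cuts: at least two vertices on both sides. -/
abbrev NCut (V : Type*) [Fintype V] [DecidableEq V] : Type _ :=
  {S : Finset V // 2 ≤ S.card ∧ 2 ≤ (univ \ S).card}

/-- The strategies of the cut player: the signed vertices `(v, true)` (`v+`), `(v, false)` (`v-`) and the nontrivial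
cuts. -/
abbrev St (V : Type*) [Fintype V] [DecidableEq V] : Type _ := (V × Bool) ⊕ NCut V

open Classical in
/-- The payoff matrix: `[v ∈ e] - 2/n` for `v+`, its negative for `v-`, `[e ∈ δ S] - 2/n` for a cut `S`, and `-10` for
loops. -/
noncomputable def pp {V : Type*} [Fintype V] [DecidableEq V] (e : Sym2 V) : St V → ℝ
  | .inl (v, b) => if e.IsDiag then -10 else (if b = true then 1 else -1) * (px e {v} - 2 / (Fintype.card V : ℝ))
  | .inr S => if e.IsDiag then -10 else px e S.1 - 2 / (Fintype.card V : ℝ)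

/-- The families of strategies which may be used together: the cuts do not cross, never `v+` and `v-`, not all `v+` and
not all `v-`. -/
def LL {V : Type*} [Fintype V] [DecidableEq V] (T : Finset (St V)) : Prop :=
  (∀ S S' : NCut V, (Sum.inr S : St V) ∈ T → (Sum.inr S' : St V) ∈ T → NonX S.1 S'.1) ∧
  (∀ v : V, ¬ ((Sum.inl (v, true) : St V) ∈ T ∧ (Sum.inl (v, false) : St V) ∈ T)) ∧
  ∀ b : Bool, ∃ v : V, (Sum.inl (v, b) : St V) ∉ T

/-- Plane edge sets without loops. -/
def KK {V : Type*} (cross : Sym2 V → Sym2 V → Prop) (G : Finset (Sym2 V)) : Prop :=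
  Plane cross G ∧ ∀ v, s(v, v) ∉ G

/-- `x` (of total weight `1`) is `1/n` times a fractional Hamiltonian cycle which either is a Hamiltonian cycle or has
only trivial minimum cuts. -/
def Good {V : Type*} [Fintype V] [DecidableEq V] (x : Sym2 V → ℝ) : Prop :=
  (∀ v, cutw x {v} = 2 / (Fintype.card V : ℝ)) ∧
  (∀ S : Finset V, S.Nonempty → S ≠ univ → 2 / (Fintype.card V : ℝ) ≤ cutw x S) ∧
  ((∀ e, x e = 0 ∨ x e = 1 / (Fintype.card V : ℝ)) ∨ ∀ S : NCut V, 2 / (Fintype.card V : ℝ) < cutw x S.1)

end H96H
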